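import Pool.Agent.Helper7K9.FI.Tp

/-!
# [DIM]
-/

namespace Pool.Agent.Helper7K9.FI

open Module

theorem dim : S_DIM := by
  intro K Ω α β _ _ _ _ _ H A s f hf
  classical
  set SA := Submodule.span Ω {u : β → Ω | ∃ a ∈ A, u = fun I => algebraMap K Ω (a I)} with hSA
  have h1 : finrank Ω SA ≤ finrank K A := by
    have b := Module.finBasis K A
    have hle : SA ≤ Submodule.span Ω
        (Set.range fun i => fun I => algebraMap K Ω ((b i : β → K) I)) := by
      rw [hSA, Submodule.span_le]
      rintro _ ⟨a, ha, rfl⟩
      have h2 : ∑ i, b.repr ⟨a, ha⟩ i • (b i : β → K) = a := by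
        have h3 := congrArg Subtype.val (b.sum_repr ⟨a, ha⟩)
        rw [Submodule.coe_sum] at h3
        exact h3
      have h4 : (fun I => algebraMap K Ω (a I)) =
          ∑ i, algebraMap K Ω (b.repr ⟨a, ha⟩ i) • fun I => algebraMap K Ω ((b i : β → K) I) := by
        funext I
        have h5 : a I = ∑ i, b.repr ⟨a, ha⟩ i * (b i : β → K) I := by
          have h6 := congrFun h2 I
          rw [Finset.sum_apply] at h6
          exact h6.symm
        rw [h5, map_sum, Finset.sum_apply]
        exact Finset.sum_congr rfl fun i _ => by rw [map_mul]; rfl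
      rw [h4]
      exact Submodule.sum_mem _ fun i _ => Submodule.smul_mem _ _
        (Submodule.subset_span ⟨i, rfl⟩)
    refine (Submodule.finrank_mono hle).trans ?_
    refine (finrank_range_le_card _).trans ?_
    simp
  -- the map from `s` copies
  let F : (Fin s → SA) →ₗ[Ω] (α → Ω) :=
    ∑ i, (f i) ∘ₗ SA.subtype ∘ₗ (LinearMap.proj i)
  have hF : ∀ u, F u = ∑ i, f i (u i) := by
    intro u
    simp [F, LinearMap.sum_apply]
  have h2 : finrank Ω (LinearMap.range F) ≤ s * finrank K A := by
    refine (LinearMap.finrank_range_le F).trans ?_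
    rw [Module.finrank_pi_fintype]
    simp only [Finset.sum_const, Finset.card_univ, Fintype.card_fin, smul_eq_mul]
    exact Nat.mul_le_mul_left _ h1
  refine le_trans ?_ h2
  have b := Module.finBasis K H
  set h := finrank K H with hh
  -- left inverse
  let E : (Fin h → K) →ₗ[K] (α → K) :=
    H.subtype ∘ₗ (b.equivFun.symm : (Fin h → K) ≃ₗ[K] H).toLinearMap
  have hE : LinearMap.ker E = ⊥ := by
    rw [LinearMap.ker_eq_bot]
    intro x y hxy
    have h3 : b.equivFun.symm x = b.equivFun.symm y := Subtype.ext hxy
    exact b.equivFun.symm.injective h3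
  obtain ⟨L, hL⟩ := LinearMap.exists_leftInverse_of_injective E hE
  have hLb : ∀ i, L (b i : α → K) = Pi.single i 1 := by
    intro i
    have h3 : E (Pi.single i 1) = (b i : α → K) := by
      show ((b.equivFun.symm (Pi.single i 1) : H) : α → K) = b i
      rw [Module.Basis.equivFun_symm_apply]
      simp [Pi.single_apply]
    rw [← h3, ← LinearMap.comp_apply, hL]
    rfl
  set M := LinearMap.toMatrix' L with hM
  let L' := Matrix.toLin' (M.map (algebraMap K Ω))
  have hL' : ∀ v : α → K, L' (fun I => algebraMap K Ω (v I)) =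
      fun i => algebraMap K Ω (L v i) := by
    intro v
    funext i
    show (M.map (algebraMap K Ω)).mulVec (fun I => algebraMap K Ω (v I)) i = _
    have h3 : L v = M.mulVec v := by
      rw [hM, LinearMap.toMatrix'_mulVec]
    rw [h3]
    exact (RingHom.map_mulVec (algebraMap K Ω) M v i).symm
  let B : Fin h → (α → Ω) := fun i I => algebraMap K Ω ((b i : α → K) I)
  have hB : ∀ i, B i ∈ LinearMap.range F := by
    intro i
    obtain ⟨u, hu1, hu2⟩ := hf (b i) (b i).2
    exact ⟨fun j => ⟨u j, hu1 j⟩, by rw [hF]; exact hu2.symm⟩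
  have hli : LinearIndependent Ω B := by
    apply LinearIndependent.of_comp L'
    have h3 : (L' ∘ B) = fun i => Pi.single i (1 : Ω) := by
      funext i
      show L' (fun I => algebraMap K Ω ((b i : α → K) I)) = _
      rw [hL', hLb]
      funext j
      rw [Pi.single_apply, Pi.single_apply]
      split_ifs <;> simp
    rw [h3]
    have h4 := (Pi.basisFun Ω (Fin h)).linearIndependent
    have h5 : (⇑(Pi.basisFun Ω (Fin h))) = fun i => Pi.single i (1 : Ω) := by
      funext i
      exact Pi.basisFun_apply Ω (Fin h) i
    rwa [h5] at h4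
  have hli2 : LinearIndependent Ω (fun i => (⟨B i, hB i⟩ : LinearMap.range F)) :=
    LinearIndependent.of_comp (LinearMap.range F).subtype hli
  have h6 := hli2.fintype_card_le_finrank
  rwa [Fintype.card_fin] at h6

end Pool.Agent.Helper7K9.FI
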