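import Pool.Agent.Helper7K9.FI.Tp

/-!
# [FIN2]
-/

namespace Pool.Agent.Helper7K9.FI

open Module

namespace Fin2L

section

variable {ι R : Type} [Fintype ι] [CommSemiring R]

theorem tp_mul (x y : ι → ι → R) (n : ℕ) (v : (Fin n → ι) → R) :
    tp (fun i j => ∑ k, x i k * y k j) n v = tp x n (tp y n v) := by
  classical
  funext J
  simp only [tp]
  have h1 : ∀ I : Fin n → ι, ∏ k, ∑ l, x (J k) l * y l (I k) =
      ∑ L : Fin n → ι, (∏ k, x (J k) (L k)) * ∏ k, y (L k) (I k) := by
    intro I
    rw [Finset.prod_univ_sum, Fintype.piFinset_univ]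
    exact Finset.sum_congr rfl fun L _ => Finset.prod_mul_distrib
  simp only [h1, Finset.sum_mul, Finset.mul_sum]
  rw [Finset.sum_comm]
  exact Finset.sum_congr rfl fun L _ => Finset.sum_congr rfl fun I _ => by ring

theorem tp_one [DecidableEq ι] (n : ℕ) (v : (Fin n → ι) → R) :
    tp (fun i j : ι => if i = j then (1 : R) else 0) n v = v := by
  funext J
  simp only [tp]
  rw [Finset.sum_eq_single J]
  · simp
  · intro I _ hI
    obtain ⟨k, hk⟩ := Function.ne_iff.1 hI
    rw [Finset.prod_eq_zero (Finset.mem_univ k) (if_neg (fun h => hk h.symm)), zero_mul]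
  · intro h
    exact absurd (Finset.mem_univ _) h

theorem tp_sum {S : Type} (s : Finset S) (x : ι → ι → R) (n : ℕ) (v : S → (Fin n → ι) → R) :
    tp x n (∑ i ∈ s, v i) = ∑ i ∈ s, tp x n (v i) := by
  funext J
  simp only [tp, Finset.sum_apply, Finset.mul_sum]
  rw [Finset.sum_comm]

theorem tp_add (x : ι → ι → R) (m n : ℕ) (w : (Fin m → ι) → R) (v : (Fin n → ι) → R)
    (J : Fin m → ι) (J' : Fin n → ι) :
    tp x (m + n) (fun I => w (fun k => I (Fin.castAdd n k)) * v (fun k => I (Fin.natAdd m k)))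
      (Fin.append J J') = tp x m w J * tp x n v J' := by
  classical
  simp only [tp]
  rw [Finset.sum_mul_sum, ← Fintype.sum_prod_type']
  symm
  refine Fintype.sum_equiv (Fin.appendEquiv m n) _ _ ?_
  rintro ⟨I, I'⟩
  simp only [Fin.appendEquiv, Equiv.coe_fn_mk, Fin.append_left, Fin.append_right]
  rw [Fin.prod_univ_add]
  simp only [Fin.append_left, Fin.append_right]
  ring

end

end Fin2L

open Fin2L

theorem fin2 (hD : S_DIM) : S_FIN2 := by
  intro K Ω ι _ _ _ _ _ A H G h1 h2 h3 hprod he hfix hfin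
  classical
  obtain ⟨r, p, hp⟩ := hfin
  let ext : ∀ n, ((Fin n → ι) → K) → ((Fin n → ι) → Ω) := fun n w I => algebraMap K Ω (w I)
  -- the classes
  let st : Setoid G :=
    { r := fun x y => ∀ n, ∀ w ∈ H n, tp x.1 n (ext n w) = tp y.1 n (ext n w)
      iseqv := ⟨fun _ _ _ _ => rfl, fun h n w hw => (h n w hw).symm,
        fun h h' n w hw => (h n w hw).trans (h' n w hw)⟩ }
  let Γ := Quotient st
  have hinj : Function.Injective (fun q : Γ => p (Quotient.out q).1) := by
    intro q q' hqq
    have h4 : st.r (Quotient.out q) (Quotient.out q') := fun n w hw =>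
      hp _ (Quotient.out q).2 _ (Quotient.out q').2 hqq n w hw
    rw [← Quotient.out_eq q, ← Quotient.out_eq q']
    exact Quotient.sound h4
  have : Finite Γ := Finite.of_injective _ hinj
  have : Fintype Γ := Fintype.ofFinite Γ
  let g : Γ → (ι → ι → Ω) := fun q => (Quotient.out q).1
  have hg : ∀ q, g q ∈ G := fun q => (Quotient.out q).2
  have hcl : ∀ x : G, ∀ n, ∀ w ∈ H n, tp (g (Quotient.mk st x)) n (ext n w) =
      tp x.1 n (ext n w) := fun x n w hw => Quotient.exact (Quotient.out_eq (Quotient.mk st x)) n w hw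
  let q1 : Γ := Quotient.mk st ⟨_, h1⟩
  have hq1 : ∀ n, ∀ w ∈ H n, tp (g q1) n (ext n w) = ext n w := by
    intro n w hw
    rw [hcl ⟨_, h1⟩ n w hw]
    exact tp_one n _
  -- the function spaces
  let Gen : ℕ → Set (Γ → Ω) := fun n => {f | ∃ w ∈ H n, ∃ J, f = fun q => tp (g q) n (ext n w) J}
  let C : ℕ → Submodule Ω (Γ → Ω) := fun n => Submodule.span Ω (Gen n)
  have hmul : ∀ m n, 0 < m → 0 < n → ∀ f ∈ C m, ∀ f' ∈ C n, f * f' ∈ C (m + n) := by
    intro m n hm hn f hf f' hf'
    have h4 : C m * C n ≤ C (m + n) := by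
      show Submodule.span Ω (Gen m) * Submodule.span Ω (Gen n) ≤ _
      rw [Submodule.span_mul_span, Submodule.span_le]
      rintro _ ⟨_, ⟨w, hw, J, rfl⟩, _, ⟨v, hv, J', rfl⟩, rfl⟩
      apply Submodule.subset_span
      refine ⟨_, hprod m n hm hn w hw v hv, Fin.append J J', ?_⟩
      funext q
      have h5 := tp_add (g q) m n (ext m w) (ext n v) J J'
      show tp (g q) m (ext m w) J * tp (g q) n (ext n v) J' = _
      rw [← h5]
      congr 1
      funext I
      exact (map_mul (algebraMap K Ω) _ _).symm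
    exact h4 (Submodule.mul_mem_mul hf hf')
  have hone : (1 : Γ → Ω) ∈ C 1 := by
    obtain ⟨e, he1, he2, he3⟩ := he
    obtain ⟨J, hJ⟩ := Function.ne_iff.1 he2
    have h4 : (fun q : Γ => tp (g q) 1 (ext 1 e) J) ∈ C 1 :=
      Submodule.subset_span ⟨e, he1, J, rfl⟩
    have h5 : (1 : Γ → Ω) = (algebraMap K Ω (e J))⁻¹ • fun q : Γ => tp (g q) 1 (ext 1 e) J := by
      funext q
      have h6 := congrFun (he3 (g q) (hg q)) J
      show (1 : Ω) = (algebraMap K Ω (e J))⁻¹ * tp (g q) 1 (ext 1 e) J
      rw [show tp (g q) 1 (ext 1 e) J = algebraMap K Ω (e J) from h6]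
      rw [inv_mul_cancel₀]
      exact fun h => hJ (by simpa using h)
    rw [h5]
    exact Submodule.smul_mem _ _ h4
  have hsucc : ∀ n, 0 < n → C n ≤ C (n + 1) := by
    intro n hn f hf
    have := hmul n 1 hn one_pos f hf 1 hone
    rwa [mul_one] at this
  have hone' : ∀ n, 0 < n → (1 : Γ → Ω) ∈ C n := by
    intro n hn
    induction n with
    | zero => omega
    | succ n ih =>
      rcases Nat.eq_zero_or_pos n with h0 | h0
      · subst h0; exact hone
      · exact hsucc n h0 (ih h0)
  -- separation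
  have hsep : ∀ q : Γ, q ≠ q1 → ∃ n, 0 < n ∧ ∃ f ∈ C n, f q1 = 1 ∧ f q = 0 := by
    intro q hq
    have h4 : ¬ st.r (Quotient.out q) ⟨_, h1⟩ := by
      intro h
      apply hq
      rw [← Quotient.out_eq q]
      exact Quotient.sound h
    have h5 : ∃ n, ∃ w ∈ H n, tp (g q) n (ext n w) ≠ ext n w := by
      by_contra hno
      push Not at hno
      exact h4 fun n w hw => (hno n w hw).trans (tp_one n _).symm
    obtain ⟨n, w, hw, hne⟩ := h5
    obtain ⟨J, hJ⟩ := Function.ne_iff.1 hne
    have hn : 0 < n := by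
      rcases Nat.eq_zero_or_pos n with h0 | h0
      · subst h0
        exfalso
        apply hJ
        simp only [tp]
        rw [Fintype.sum_eq_single J (fun x hx => absurd (Subsingleton.elim x J) hx)]
        simp
      · exact h0
    set f : Γ → Ω := fun q => tp (g q) n (ext n w) J with hf
    have hfC : f ∈ C n := Submodule.subset_span ⟨w, hw, J, rfl⟩
    have hf1 : f q1 = ext n w J := congrFun (hq1 n w hw) J
    have hne' : f q1 - f q ≠ 0 := by
      rw [hf1]
      exact sub_ne_zero.2 (fun h => hJ h.symm)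
    refine ⟨n, hn, (f q1 - f q)⁻¹ • (f - f q • 1), Submodule.smul_mem _ _
      (Submodule.sub_mem _ hfC (Submodule.smul_mem _ _ (hone' n hn))), ?_, ?_⟩
    · simp only [Pi.smul_apply, Pi.sub_apply, Pi.one_apply, smul_eq_mul, mul_one]
      exact inv_mul_cancel₀ hne'
    · simp
  have hind : ∀ T : Finset Γ, q1 ∉ T → ∃ n, 0 < n ∧ ∃ f ∈ C n, f q1 = 1 ∧ ∀ q ∈ T, f q = 0 := by
    intro T
    induction T using Finset.induction_on with
    | empty => exact fun _ => ⟨1, one_pos, 1, hone, rfl, by simp⟩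
    | insert q T hqT ih =>
      intro hq1T
      rw [Finset.mem_insert, not_or] at hq1T
      obtain ⟨n, hn, f, hf, hf1, hf2⟩ := ih hq1T.2
      obtain ⟨n', hn', f', hf', hf1', hf2'⟩ := hsep q (fun h => hq1T.1 h.symm)
      refine ⟨n + n', by omega, f * f', hmul n n' hn hn' f hf f' hf', ?_, ?_⟩
      · rw [Pi.mul_apply, hf1, hf1', mul_one]
      · intro q' hq'
        rw [Finset.mem_insert] at hq'
        rcases hq' with rfl | hq'
        · rw [Pi.mul_apply, hf2', mul_zero]
        · rw [Pi.mul_apply, hf2 q' hq', zero_mul]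
  obtain ⟨m, hm, f, hf, hf1, hf2⟩ := hind (Finset.univ.erase q1) (by simp)
  obtain ⟨s, a, w, haw⟩ := (Submodule.mem_span_set').1 hf
  choose W hW J hJ using fun i => (w i).2
  have hfq : ∀ q, ∑ i, a i * tp (g q) m (ext m (W i)) (J i) = if q = q1 then 1 else 0 := by
    intro q
    have h4 := congrFun haw q
    rw [Finset.sum_apply] at h4
    have h5 : ∀ i, (a i • (w i : Γ → Ω)) q = a i * tp (g q) m (ext m (W i)) (J i) := by
      intro i
      rw [Pi.smul_apply, smul_eq_mul, hJ i]
    simp only [h5] at h4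
    rw [h4]
    split_ifs with hq
    · rw [hq, hf1]
    · exact hf2 q (by simp [hq])
  refine ⟨m, s, fun n hn => ?_⟩
  -- contraction
  let ctr : (Fin m → ι) → ((Fin (m + n) → ι) → Ω) →ₗ[Ω] ((Fin n → ι) → Ω) := fun L =>
    LinearMap.pi fun I => LinearMap.proj (Fin.append L I)
  refine hD K Ω (Fin n → ι) (Fin (m + n) → ι) (H n) (A (m + n)) s
    (fun i => a i • ctr (J i)) (fun v hv => ?_)
  have hwv : ∀ i, (fun L : Fin (m + n) → ι => W i (fun k => L (Fin.castAdd n k)) *
      v (fun k => L (Fin.natAdd m k))) ∈ H (m + n) := fun i => hprod m n hm hn _ (hW i) _ hv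
  refine ⟨fun i => ∑ q, tp (g q) (m + n) (ext (m + n) (fun L : Fin (m + n) → ι =>
    W i (fun k => L (Fin.castAdd n k)) * v (fun k => L (Fin.natAdd m k)))), fun i => ?_, ?_⟩
  · apply hfix (m + n) (by omega)
    intro x hx
    rw [tp_sum]
    -- the map of classes
    let π : Γ → Γ := fun q => Quotient.mk st ⟨_, h2 x hx (g q) (hg q)⟩
    have hπ : ∀ q, ∀ n, ∀ w ∈ H n, tp (g (π q)) n (ext n w) = tp x n (tp (g q) n (ext n w)) := by
      intro q n w hw
      rw [hcl ⟨_, h2 x hx (g q) (hg q)⟩ n w hw]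
      exact tp_mul _ _ _ _
    have hsurj : Function.Surjective π := by
      intro q'
      obtain ⟨y, hy, hxy⟩ := h3 x hx
      refine ⟨Quotient.mk st ⟨_, h2 y hy (g q') (hg q')⟩, ?_⟩
      conv_rhs => rw [← Quotient.out_eq q']
      apply Quotient.sound
      intro n w hw
      show tp (fun i j => ∑ k, x i k * g _ k j) n (ext n w) = tp (g q') n (ext n w)
      rw [tp_mul, hcl ⟨_, h2 y hy (g q') (hg q')⟩ n w hw]
      show tp x n (tp (fun i j => ∑ k, y i k * g q' k j) n (ext n w)) = _
      rw [tp_mul, ← tp_mul x y, hxy, tp_one]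
    have hbij : Function.Bijective π := (Finite.injective_iff_bijective.1
      (Finite.injective_iff_surjective.2 hsurj))
    have h4 : ∀ q, tp x (m + n) (tp (g q) (m + n) (ext (m + n) (fun L : Fin (m + n) → ι =>
        W i (fun k => L (Fin.castAdd n k)) * v (fun k => L (Fin.natAdd m k))))) =
        tp (g (π q)) (m + n) (ext (m + n) (fun L : Fin (m + n) → ι =>
        W i (fun k => L (Fin.castAdd n k)) * v (fun k => L (Fin.natAdd m k)))) := fun q =>
      (hπ q (m + n) _ (hwv i)).symm
    simp only [h4]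
    exact Function.Bijective.sum_comp hbij fun q => tp (g q) (m + n) (ext (m + n)
      (fun L : Fin (m + n) → ι =>
        W i (fun k => L (Fin.castAdd n k)) * v (fun k => L (Fin.natAdd m k))))
  · funext I
    rw [Finset.sum_apply]
    have h4 : ∀ i, ((fun i => a i • ctr (J i)) i (∑ q, tp (g q) (m + n) (ext (m + n)
        (fun L : Fin (m + n) → ι => W i (fun k => L (Fin.castAdd n k)) *
          v (fun k => L (Fin.natAdd m k)))))) I =
        ∑ q, a i * tp (g q) m (ext m (W i)) (J i) * tp (g q) n (ext n v) I := by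
      intro i
      show a i * (∑ q, tp (g q) (m + n) (ext (m + n)
        (fun L : Fin (m + n) → ι => W i (fun k => L (Fin.castAdd n k)) *
          v (fun k => L (Fin.natAdd m k))))) (Fin.append (J i) I) = _
      rw [Finset.sum_apply, Finset.mul_sum]
      refine Finset.sum_congr rfl fun q _ => ?_
      rw [mul_assoc, ← tp_add]
      congr 2
      funext L
      exact map_mul (algebraMap K Ω) _ _
    simp only [h4]
    rw [Finset.sum_comm]
    have h5 : ∀ q, ∑ i, a i * tp (g q) m (ext m (W i)) (J i) * tp (g q) n (ext n v) I =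
        (if q = q1 then 1 else 0) * tp (g q) n (ext n v) I := by
      intro q
      rw [← Finset.sum_mul, hfq]
    rw [Finset.sum_congr rfl fun q _ => h5 q, Finset.sum_eq_single q1]
    · rw [if_pos rfl, one_mul]
      exact (congrFun (hq1 n v hv) I).symm
    · intro q _ hq
      rw [if_neg hq, zero_mul]
    · intro h
      exact absurd (Finset.mem_univ _) h

end Pool.Agent.Helper7K9.FI
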