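import Pool.Agent.Helper7K9.FI.Nat
import Pool.Agent.Helper7K9.FP.Num

/-!
# The classes fixed by the operators which fix the absolutely Hodge classes
-/

open CategoryTheory AlgebraicGeometry TensorProduct

universe u v

namespace Pool.Agent.Helper7K9.FI

open Module
open Pool.Agent.H914 Pool.Agent.H914.VarClass Pool.Agent.H914.VarClass.Obj
  Pool.Agent.H914.WeilCohomology
open Pool.Agent.Y133.Half
open Pool.Agent.Y121.AH
open Pool.Agent.Helper7K9.FP

variable {k : Type u} [Field k] {𝒱 : VarClass k} {ops : CycleOps 𝒱}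

section Conj

variable {T T' : HodgeTheory ops} {X Y Z : 𝒱.Obj} {D : Conjugates T}

/-- The identity comparison. -/
noncomputable def reflC (V : WeilCohomology.{u, 0} ops) : Comparison V V where
  s := RingEquiv.refl _
  c := 1
  ne := one_ne_zero
  e X := RingEquiv.refl _
  semi _ _ _ := rfl
  gr := Iff.rfl
  nat _ _ := rfl
  cyc {X j z} _ := by rw [one_pow, one_smul]; rfl
  tr X a := by rw [one_pow, one_mul]; rfl

/-- The comparison of the theory with complex coefficients with itself given by an automorphism of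
the complex numbers. -/
lemma exists_aut (T : HodgeTheory ops) (σ : ℂ ≃+* ℂ) : ∃ R : Comparison (CW T) (CW T),
    R.s = (show (CW T).K ≃+* (CW T).K from σ) ∧
      ∀ (X : 𝒱.Obj) (v : T.W.H X), R.e X (em T.W ℂ v) = em T.W ℂ v := by
  obtain ⟨R, h1, -, h2⟩ := rho_main T T ℂ (reflC (CW T)) (RingHom.id ℂ) σ
  refine ⟨R, h1, fun X v => ?_⟩
  rw [h2]
  exact psi_em (W := T.W) (L := ℂ) (M := ℂ) (ratAlg T (RingHom.id ℂ)) v

/-- Conjugates of the operators. -/
lemma Fix.conj {R : Comparison (CW T) (CW T)} (hR : ∀ (X : 𝒱.Obj) (v : T.W.H X),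
    R.e X (em T.W ℂ v) = em T.W ℂ v) {S : Sys T.W} {x : Module.End (CW T).K ((CW T).H X)}
    (hx : Fix S X ℂ x) : Fix S X ℂ (cj R x) where
  gr i a ha := by
    have h1 : R.e X (cj R x a) ∈ (CW T).gr X i := by
      rw [e_cj]
      exact hx.gr i _ (R.gr.2 ha)
    exact R.gr.1 h1
  iso a b := by
    have h1 : R.e X (cj R x a * cj R x b) = x (R.e X a) * x (R.e X b) := by
      rw [map_mul, e_cj, e_cj]
    have h2 : (CW T).tr X (R.e X (cj R x a * cj R x b)) = (CW T).tr X (R.e X (a * b)) := by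
      rw [h1, map_mul (R.e X)]
      exact hx.iso _ _
    rw [R.tr, R.tr] at h2
    exact R.s.injective (mul_left_cancel₀ (pow_ne_zero _ R.ne) h2)
  fix n a ha := by
    apply e_inj R
    have h1 : R.e (pw X n) (pwo (CW T) (cj R x) n (em T.W ℂ a)) = em T.W ℂ a := by
      rw [e_pwo, hR]
      exact hx.fix n a ha
    exact h1.trans (hR _ _).symm

/-- The realisation maps are injective. -/
lemma psi_inj {L : Type} [Field L] [Algebra T.W.K L] (τ : L →+* ℂ)
    {x y : (baseW T.W L).H X}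
    (h : psi T.W (ratAlg T τ) X x = psi T.W (ratAlg T τ) X y) : x = y := by
  rw [← sub_eq_zero]
  apply nondeg_em
  intro z
  have h1 := psi_tr (ratAlg T τ) ((x - y) * em T.W L z)
  rw [map_mul (psi T.W (ratAlg T τ) X), map_sub, h, sub_self, zero_mul, map_zero] at h1
  exact (map_eq_zero (kap T.W (ratAlg T τ))).1 h1.symm

/-- A class is rational if all its conjugates are equal. -/
lemma exists_em {L : Type} [Field L] [Algebra T.W.K L] (τ : L →+* ℂ)
    {w : (baseW T.W L).H X}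
    (h : ∀ g : ℂ ≃+* ℂ, psi T.W (ratAlg T (g.toRingHom.comp τ)) X w =
      psi T.W (ratAlg T τ) X w) : ∃ c, w = em T.W L c := by
  have h1 : ∀ y : T.W.H X, ∃ r : T.W.K, ex T.W L r = (baseW T.W L).tr X (w * em T.W L y) := by
    intro y
    have h2 : ∀ g : ℂ ≃+* ℂ, g (τ (show L from (baseW T.W L).tr X (w * em T.W L y))) =
        τ (show L from (baseW T.W L).tr X (w * em T.W L y)) := by
      intro g
      have h3 := psi_tr (ratAlg T (g.toRingHom.comp τ)) (w * em T.W L y)
      have h4 := psi_tr (ratAlg T τ) (w * em T.W L y)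
      rw [map_mul (psi T.W _ X), psi_em] at h3 h4
      rw [h g] at h3
      exact h3.symm.trans h4
    obtain ⟨q, hq⟩ := Pool.Agent.W655.PG.rat_of_fixed h2
    refine ⟨(q : T.W.K), ?_⟩
    rw [ex_rat]
    have h5 : τ (q : L) = τ (show L from (baseW T.W L).tr X (w * em T.W L y)) := by
      rw [map_ratCast]; exact hq
    exact τ.injective h5
  choose r hr using h1
  have hinj : ∀ a b : T.W.K, ex T.W L a = ex T.W L b → a = b := fun a b h =>
    (algebraMap T.W.K L).injective h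
  let φ : T.W.H X →ₗ[T.W.K] T.W.K :=
    { toFun := r
      map_add' := fun a b => by
        apply hinj
        rw [hr, em_add, mul_add, map_add, ← hr, ← hr]
        exact (map_add (algebraMap T.W.K L) _ _).symm
      map_smul' := fun c a => by
        apply hinj
        rw [hr, em_smul, mul_smul_comm, map_smul, ← hr]
        exact (map_mul (algebraMap T.W.K L) _ _).symm }
  let B : T.W.H X →ₗ[T.W.K] Module.Dual T.W.K (T.W.H X) :=
    LinearMap.mk₂ T.W.K (fun a b => T.W.tr X (a * b)) (fun a b c => by rw [add_mul, map_add])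
      (fun c a b => by rw [smul_mul_assoc, map_smul]) (fun a b c => by rw [mul_add, map_add])
      (fun c a b => by rw [mul_smul_comm, map_smul])
  have hB : Function.Injective B := by
    rw [injective_iff_map_eq_zero]
    intro a ha
    apply T.W.nondeg
    intro b
    exact congrArg (fun f : Module.Dual T.W.K (T.W.H X) => f b) ha
  have hB' : Function.Surjective B :=
    (LinearMap.injective_iff_surjective_of_finrank_eq_finrank
      (Subspace.dual_finrank_eq (K := T.W.K) (V := T.W.H X)).symm).1 hB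
  obtain ⟨c, hc⟩ := hB' φ
  refine ⟨c, ?_⟩
  rw [← sub_eq_zero]
  apply nondeg_em
  intro y
  have h2 : T.W.tr X (c * y) = r y := congrArg (fun f : Module.Dual T.W.K (T.W.H X) => f y) hc
  rw [sub_mul, map_sub, ← hr, ← em_mul, em_tr, h2, sub_self]

end Conj

section Good

variable {T : HodgeTheory ops} {D : Conjugates T} {X Z : 𝒱.Obj}

/-- The comparison respects the absolutely Hodge classes. -/
structure Good (D : Conjugates T) (i : D.ι) (R : Comparison (CW T) (CW (D.T' i))) : Prop where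
  s : R.s = (show (CW T).K ≃+* (CW (D.T' i)).K from RingEquiv.refl ℂ)
  abs : ∀ (Z : 𝒱.Obj) (j : ℕ) (c : T.W.H Z) (c' : ∀ i, (D.T' i).W.H Z),
    (∀ a, Corresponds D a Z j c (c' (D.t a))) →
      R.e Z (em T.W ℂ c) = R.c ^ j • em (D.T' i).W ℂ (c' i)

lemma exists_good (a : D.J) (τ : D.L a →+* ℂ) : ∃ R : Comparison (CW T) (CW (D.T' (D.t a))),
    Good D (D.t a) R ∧ R.c = kap (D.T' (D.t a)).W (ratAlg (D.T' (D.t a)) τ) (D.cmp a).c ∧
    ∀ (Z : 𝒱.Obj) (v : T.W.H Z), R.e Z (em T.W ℂ v) =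
      psi (D.T' (D.t a)).W (ratAlg (D.T' (D.t a)) τ) Z ((D.cmp a).e Z (em T.W (D.L a) v)) := by
  obtain ⟨R, h1, h2, h3⟩ := rho_main T (D.T' (D.t a)) (D.L a) (D.cmp a) τ (RingEquiv.refl ℂ)
  refine ⟨R, ⟨h1, fun Z j c c' hc => ?_⟩, h2, h3⟩
  have h4 : (D.cmp a).e Z (em T.W (D.L a) c) =
    (D.cmp a).c ^ j • em (D.T' (D.t a)).W (D.L a) (c' (D.t a)) := hc a
  rw [h3, h4, psi_smul, psi_em, h2, map_pow]

/-- The class is fixed by all natural families which fix the absolutely Hodge classes. -/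
def NFix (D : Conjugates T) (Z : 𝒱.Obj) (v : (CW T).H Z) : Prop :=
  ∀ θ : ∀ Y : 𝒱.Obj, Module.End (CW T).K ((CW T).H Y), IsNat (CW T) θ →
    (∀ (Z : 𝒱.Obj) (j : ℕ) (c : T.W.H Z), IsAbsHodge D Z j c →
      θ Z (em T.W ℂ c) = em T.W ℂ c) → θ Z v = v

lemma NFix.gop {v : (CW T).H Z} (h : NFix D Z v) : Pool.Agent.Y121.AH.gop T Z v = v :=
  h _ (isNat_gop T) fun _ _ _ hc => gop_hodge hc.1

lemma NFix.gop' {i : D.ι} {R : Comparison (CW T) (CW (D.T' i))} (hR : Good D i R)
    {v : (CW T).H Z} (h : NFix D Z v) :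
    Pool.Agent.Y121.AH.gop (D.T' i) Z (R.e Z v) = R.e Z v := by
  have h1 := h _ ((isNat_gop (D.T' i)).cj R) fun Z j c hc => ?_
  · have h2 := congrArg (R.e Z) h1
    rw [e_cj] at h2
    exact h2
  · obtain ⟨-, c', hh, hcor⟩ := hc
    apply e_inj R
    rw [e_cj, hR.abs Z j c c' hcor, map_smul, gop_hodge (hh i)]

lemma NFix.eq {i : D.ι} {R₁ R₂ : Comparison (CW T) (CW (D.T' i))} (h1 : Good D i R₁)
    (h2 : Good D i R₂) {j : ℕ} {v : (CW T).H Z} (hv : v ∈ (CW T).gr Z (2 * j))
    (h : NFix D Z v) : R₂.c ^ j • R₁.e Z v = R₁.c ^ j • R₂.e Z v := by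
  obtain ⟨t, ht⟩ : ∃ t : (CW (D.T' i)).K, t ^ 2 = R₁.c / R₂.c := by
    obtain ⟨t, ht⟩ := IsAlgClosed.exists_pow_nat_eq (show ℂ from (R₁.c / R₂.c)) (n := 2)
      (by norm_num)
    exact ⟨t, ht⟩
  have ht' : t ^ 2 * R₂.c = R₁.c := by rw [ht, div_mul_cancel₀ _ R₂.ne]
  have hs : R₁.s = R₂.s := h1.s.trans h2.s.symm
  have h3 := h _ (isNat_rr R₁ R₂ hs ht') fun Z j c hc => ?_
  · have h4 := congrArg (R₁.e Z) h3
    rw [e_rr, dsc_gr t (R₂.gr.2 hv)] at h4
    rw [← h4, smul_smul, pow_mul, ← mul_pow, mul_comm R₂.c, ht']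
  · obtain ⟨hc, c', hh, hcor⟩ := hc
    apply e_inj R₁
    rw [e_rr, dsc_gr t (R₂.gr.2 (em_gr hc.1)), h1.abs Z j c c' hcor, h2.abs Z j c c' hcor,
      smul_smul, pow_mul, ← mul_pow, ht']

lemma corr_of {c : T.W.H Z} {j : ℕ} (a : D.J) {i : D.ι} (e : D.t a = i)
    (w : (D.T' i).W.H Z) (h : ∀ R, Good D i R → R.e Z (em T.W ℂ c) =
      R.c ^ j • em (D.T' i).W ℂ w) : Corresponds D a Z j c (e.symm ▸ w) := by
  subst e
  obtain ⟨τ⟩ := D.emb a
  obtain ⟨R, hR, hRc, hRe⟩ := exists_good a τ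
  have h1 := h R hR
  have h2 : (D.cmp a).e Z (em T.W (D.L a) c) =
      (D.cmp a).c ^ j • em (D.T' (D.t a)).W (D.L a) w := by
    apply psi_inj τ
    rw [← hRe, h1, psi_smul, psi_em, hRc, map_pow]
  exact h2

/-- A Hodge class which is fixed by all natural families which fix the absolutely Hodge classes is
absolutely Hodge. -/
lemma NFix.abs {j : ℕ} {c : T.W.H Z} (hc : IsHodge T Z j c) (h : NFix D Z (em T.W ℂ c)) :
    IsAbsHodge D Z j c := by
  classical
  have key : ∀ i, ∃ w : (D.T' i).W.H Z, IsHodge (D.T' i) Z j w ∧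
      ∀ a (e : D.t a = i), Corresponds D a Z j c (e.symm ▸ w) := by
    intro i
    by_cases hi : ∃ a, D.t a = i
    · obtain ⟨a₀, rfl⟩ := hi
      obtain ⟨τ⟩ := D.emb a₀
      have hv : em T.W ℂ c ∈ (CW T).gr Z (2 * j) := em_gr hc.1
      have h0 : ∀ τ : D.L a₀ →+* ℂ, ∃ R : Comparison (CW T) (CW (D.T' (D.t a₀))),
          Good D (D.t a₀) R ∧ R.e Z (em T.W ℂ c) = R.c ^ j •
            psi (D.T' (D.t a₀)).W (ratAlg (D.T' (D.t a₀)) τ) Z (nrm (D.cmp a₀) Z j c) := by
        intro τ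
        obtain ⟨R, hR, hRc, hRe⟩ := exists_good a₀ τ
        refine ⟨R, hR, ?_⟩
        have h1 : (D.cmp a₀).e Z (em T.W (D.L a₀) c) =
          (D.cmp a₀).c ^ j • nrm (D.cmp a₀) Z j c := (nrm_eq_iff (D.cmp a₀)).1 rfl
        rw [hRe, h1, psi_smul, hRc, map_pow]
      obtain ⟨R, hR, hRw⟩ := h0 τ
      obtain ⟨w, hw⟩ := exists_em (T := D.T' (D.t a₀)) τ
        (w := nrm (D.cmp a₀) Z j c) fun g => by
          obtain ⟨R', hR', hRw'⟩ := h0 (g.toRingHom.comp τ)
          have h1 := h.eq hR' hR hv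
          rw [hRw, hRw', smul_smul, smul_smul, mul_comm] at h1
          exact smul_right_injective _ (mul_ne_zero (pow_ne_zero _ R'.ne)
            (pow_ne_zero _ R.ne)) h1
      have hRe : R.e Z (em T.W ℂ c) = R.c ^ j • em (D.T' (D.t a₀)).W ℂ w := by
        rw [hRw, hw, psi_em]
      have hwg : w ∈ (D.T' (D.t a₀)).W.gr Z (2 * j) := by
        have h1 : R.e Z (em T.W ℂ c) ∈ (CW (D.T' (D.t a₀))).gr Z (2 * j) := R.gr.2 hv
        rw [hRe] at h1
        have h2 := Submodule.smul_mem _ (R.c ^ j)⁻¹ h1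
        rw [smul_smul, inv_mul_cancel₀ (pow_ne_zero _ R.ne), one_smul] at h2
        exact mem_of_em_mem h2
      refine ⟨w, isHodge_of_fix hwg ?_, fun a e => corr_of a e w fun R' hR' => ?_⟩
      · have h1 := h.gop' hR
        rw [hRe, map_smul] at h1
        exact smul_right_injective _ (pow_ne_zero _ R.ne) h1
      · have h1 := h.eq hR' hR hv
        rw [hRe, smul_comm] at h1
        exact smul_right_injective _ (pow_ne_zero _ R.ne) h1
    · exact ⟨0, IsHodge.zero, fun a e => absurd ⟨a, e⟩ hi⟩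
  choose c' hh hcor using key
  exact ⟨hc, c', hh, fun a => hcor _ a rfl⟩

lemma NFix.proj {b : T.W.H Z} (h : NFix D Z (em T.W ℂ b)) (i : ℕ) :
    NFix D Z (em T.W ℂ (H914.proj (T.W.isInternal Z) i b)) := by
  intro θ hθ hf
  rw [em_proj, ← proj_gr (hθ.gr Z), h θ hθ hf]

/-- A rational class fixed by all natural families is a combination of absolutely Hodge classes. -/
lemma NFix.mem {b : T.W.H Z} (h : NFix D Z (em T.W ℂ b)) : b ∈ (absSys D).C Z := by
  have h1 : b = (∑ i ∈ Finset.range (2 * Z.dim + 1), H914.proj (T.W.isInternal Z) i) b := by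
    rw [sum_proj (T.W.isInternal Z) (fun i hi => T.W.gr_eq_bot Z i (by omega))]
    rfl
  rw [h1, LinearMap.sum_apply]
  refine Submodule.sum_mem _ fun i _ => ?_
  have h2 := dop_of_gop (h.proj i).gop
  have h3 := H914.proj_mem (T.W.isInternal Z) i b
  rcases Nat.even_or_odd' i with ⟨j, rfl | rfl⟩
  · exact ClassPred.sp_of (Q := absPred D) (j := j)
      ((h.proj (2 * j)).abs ⟨h3, pq_of_dop (em_gr h3) h2⟩)
  · have h4 := em_injective (eq_zero_of_dop (em_gr h3) h2)
    rw [h4]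
    exact Submodule.zero_mem _

end Good

/-- The classes which are fixed by all operators which fix the absolutely Hodge classes are linear
combinations of absolutely Hodge classes. -/
theorem tan (T : HodgeTheory ops) : S_TAN T := by
  classical
  intro D X n v hv
  let U : Submodule (CW T).K ((CW T).H (pw X n)) :=
    { carrier := {v | ∀ x : Module.End (CW T).K ((CW T).H X), Fix (absSys D) X ℂ x →
        pwo (CW T) x n v = v}
      zero_mem' := fun x _ => map_zero _
      add_mem' := fun {a b} ha hb x hx => by rw [map_add, ha x hx, hb x hx]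
      smul_mem' := fun l a ha x hx => by rw [map_smul, ha x hx] }
  have hU : ∀ (R : Comparison (CW T) (CW T)), (∀ (X : 𝒱.Obj) (v : T.W.H X),
      R.e X (em T.W ℂ v) = em T.W ℂ v) → ∀ v ∈ U, R.e _ v ∈ U := by
    intro R hR v hv x hx
    have h1 := e_pwo R x n v
    rw [hv _ (hx.conj hR)] at h1
    exact h1.symm
  have hmem : ∀ b : T.W.H (pw X n), em T.W ℂ b ∈ U → b ∈ (absSys D).C (pw X n) := by
    intro b hb
    refine NFix.mem fun θ hθ hf => ?_
    rw [← hθ.pwo X n]
    exact hb _ (hθ.fix hf X)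
  let b := Basis.ofVectorSpace T.W.K ℂ
  have hw0 : ∃ f : (Basis.ofVectorSpaceIndex T.W.K ℂ) →₀ T.W.H (pw X n),
      (f.sum fun i m => b i ⊗ₜ[T.W.K] m) = (v : ℂ ⊗[T.W.K] T.W.H (pw X n)) :=
    TensorProduct.eq_repr_basis_left b v
  obtain ⟨f, hf⟩ := hw0
  have hf' : v = ∑ i ∈ f.support, (show (CW T).K from b i) • em T.W ℂ (f i) := by
    rw [← hf, Finsupp.sum]
    exact Finset.sum_congr rfl fun i _ => tmul_eq (W := T.W) (L := ℂ) (b i) (f i)
  have key : ∀ i ∈ f.support, em T.W ℂ (f i) ∈ U := by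
    intro i hi
    by_contra hc
    obtain ⟨φ, hφ, hφp⟩ := Submodule.exists_dual_map_eq_bot_of_notMem hc inferInstance
    apply hφ
    refine aut_indep (indep_basis b (RingHom.id ℂ)) _ f.support rfl
      (fun i => φ (em T.W ℂ (f i))) ?_ i hi
    intro g
    obtain ⟨R, hRs, hRe⟩ := exists_aut T g
    have h1 : φ (R.e _ v) = 0 := by
      have h2 := Submodule.mem_map_of_mem (f := φ) (hU R hRe v hv)
      rw [hφp, Submodule.mem_bot] at h2
      exact h2
    rw [hf', map_sum, map_sum] at h1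
    refine Eq.trans (Finset.sum_congr rfl fun i _ => ?_) h1
    have h3 : φ (R.e _ ((show (CW T).K from b i) • em T.W ℂ (f i))) =
        R.s (show (CW T).K from b i) * φ (em T.W ℂ (f i)) := by
      rw [R.semi, hRe, map_smul, smul_eq_mul]
    refine Eq.trans ?_ h3.symm
    rw [hRs]
    exact mul_comm (φ (em T.W ℂ (f i)) : ℂ) (g (b i))
  rw [hf']
  exact Submodule.sum_mem _ fun i hi => Submodule.smul_mem _ _
    (Submodule.subset_span ⟨_, hmem _ (key i hi), rfl⟩)

end Pool.Agent.Helper7K9.FI
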