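import Pool.Agent.Helper7K9.FI.Spc
import Pool.Agent.Helper7K9.FI.Fin2
import Pool.Agent.Helper7K9.FI.Dim
import Pool.Agent.Helper7K9.FI.Tan
import Pool.Agent.Helper7K9.FP.Num

/-!
# The finiteness of the index: assembly
-/

open CategoryTheory AlgebraicGeometry TensorProduct

universe u v

namespace Pool.Agent.Helper7K9.FI

open Module
open Pool.Agent.H914 Pool.Agent.H914.VarClass Pool.Agent.H914.VarClass.Obj
  Pool.Agent.H914.WeilCohomology
open Pool.Agent.Y133.Half
open Pool.Agent.Y121.AH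
open Pool.Agent.Helper7K9.FP
open Pool.Agent.Y121 (AH.em)

variable {k : Type u} [Field k] {𝒱 : VarClass k} {ops : CycleOps 𝒱}

section Fam

variable {W : WeilCohomology.{u, 0} ops} {X : 𝒱.Obj} {ι : Type} [Fintype ι]
  {b : Basis ι W.K (W.H X)}

/-- The coordinates of the classes of the system. -/
noncomputable def fam (S : Sys W)
    (c : ∀ n, W.H (pw X n) ≃ₗ[W.K] ((Fin (n + 1) → ι) → W.K)) :
    ∀ n, Submodule W.K ((Fin n → ι) → W.K)
  | 0 => ⊥
  | n + 1 => (S.C (pw X n)).map (c n).toLinearMap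

variable {c : ∀ n, W.H (pw X n) ≃ₗ[W.K] ((Fin (n + 1) → ι) → W.K)} {S : Sys W}

lemma finrank_fam (n : ℕ) : finrank W.K (fam S c (n + 1)) = finrank W.K (S.C (pw X n)) :=
  LinearEquiv.finrank_map_eq (c n) _

lemma fam_mul (hc : Crd b c) : ∀ m n, 0 < m → 0 < n → ∀ w ∈ fam S c m, ∀ v ∈ fam S c n,
    (fun J : Fin (m + n) → ι => w (fun k => J (Fin.castAdd n k)) *
      v (fun k => J (Fin.natAdd m k))) ∈ fam S c (m + n)
  | 0, _, h, _, _, _, _, _ => absurd h (lt_irrefl 0)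
  | _ + 1, 0, _, h, _, _, _, _ => absurd h (lt_irrefl 0)
  | m + 1, n + 1, _, _, w, hw, v, hv => by
    obtain ⟨w, hw, rfl⟩ := hw
    obtain ⟨v, hv, rfl⟩ := hv
    exact ⟨conc W w v, S.mul (S.map _ hw) (S.map _ hv), funext fun J => hc.conc w n v J⟩

end Fam

section Typ

variable {T : HodgeTheory ops} {X : 𝒱.Obj} {D : Conjugates T}

/-- If there are no central derivations then the operators which kill the absolutely Hodge
classes kill the Hodge classes. -/
lemma kills (hM : S_MID T) (hD : S_DOP T)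
    (hH : ∀ c, IsHodge T ((X.prod X).prod (X.prod X)) (2 * X.dim) c →
      IsAbsHodge D ((X.prod X).prod (X.prod X)) (2 * X.dim) c)
    (hz : ∀ z, Ctr T X z → z = 0) (y : Module.End T.W.K (T.W.H X)) (hy : IsGr T.W y)
    (hanti : Anti (absSys D) X y) (n : ℕ) (b : T.W.H (pw X n))
    (hb : b ∈ (hodgeSys T).C (pw X n)) : del T.W y n b = 0 := by
  have hle : ∀ Z, (absSys D).C Z ≤ (hodgeSys T).C Z := abs_le_hodge D
  have hgr : zcl T.W y ∈ T.W.gr (X.prod X) (2 * X.dim) :=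
    zcl_gr fun {i a} ha => hy i a ha
  obtain ⟨h, z, hh, hzh, hxz⟩ := Mid.exists_decomp hM hD
    (fun c hc => ClassPred.sp_of (Q := absPred D) (hH c hc)) hanti hgr
  have hz' : Anti (absSys D) X (T.W.corr z) := by
    have h1 : T.W.corr z = y + -h := by rw [hxz]; abel
    rw [h1]
    exact hanti.add (hh.mono hle).neg
  have hc : Ctr T X z := by
    refine ⟨hzh, fun z' hz'' a => ?_, hz'.adj, hz'.lb⟩
    have h1 : T.W.corr z' ∈ (absSys D).Op (pw X 0) (pw X 0) :=
      Sys.Op.corr (ClassPred.sp_of (Q := absPred D) (abs_sq hH hz''))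
    exact hz'.nat h1 a
  have h1 := hz z hc
  have h2 := hh.kill n b hb
  rw [hxz, h1, corr_zero, add_zero]
  exact h2

/-- The bound for the dimension of the spaces of Hodge classes. -/
theorem bound [Nontrivial (T.W.H X)] (hcrd : ∀ V : WeilCohomology.{u, 0} ops, S_CRD V)
    (hk : ∀ y : Module.End T.W.K (T.W.H X), IsGr T.W y → Anti (absSys D) X y →
      ∀ n, ∀ b ∈ (hodgeSys T).C (pw X n), del T.W y n b = 0) :
    ∃ m C : ℕ, ∀ n, finrank T.W.K ((hodgeSys T).C (pw X n)) ≤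
      C * finrank T.W.K ((absSys D).C (pw X (m + n))) := by
  classical
  obtain ⟨ι, hι, b, deg, hb⟩ := exists_hbas T.W X
  obtain ⟨c, hc0, hc1⟩ := hcrd T.W X ι b
  have hc : Crd b c := ⟨hc0, hc1⟩
  obtain ⟨cC, hC0, hC1⟩ := hcrd (CW T) X ι (bK ℂ b)
  have hC : Crd (bK ℂ b) cC := ⟨hC0, hC1⟩
  let G : Set (ι → ι → ℂ) := {g | Fix (absSys D) X ℂ (opK ℂ b g)}
  have hL : ∀ (κ : Type) [Field κ] [Algebra ℂ κ] (x : ι → ι → κ),
      (∀ f : MvPolynomial (ι × ι) ℂ,
        (∀ g ∈ G, MvPolynomial.aeval (fun p : ι × ι => g p.1 p.2) f = 0) →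
        MvPolynomial.aeval (fun p : ι × ι => x p.1 p.2) f = 0) →
      ∀ n, ∀ w ∈ fam (hodgeSys T) c n, ∀ J,
        tp x n (fun I => algebraMap ℂ κ (algebraMap T.W.K ℂ (w I))) J ∈
          Set.range (algebraMap ℂ κ) := by
    intro κ _ _ x hx n w hw J
    obtain - | n := n
    · have h1 : w = 0 := hw
      refine ⟨0, ?_⟩
      rw [h1, map_zero]
      simp only [tp, Pi.zero_apply, map_zero, mul_zero, Finset.sum_const_zero]
    · obtain ⟨a, ha, rfl⟩ := hw
      letI : Algebra T.W.K κ := ((algebraMap ℂ κ).comp (algebraMap T.W.K ℂ)).toAlgebra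
      haveI : IsScalarTower T.W.K ℂ κ := IsScalarTower.of_algebraMap_eq fun _ => rfl
      obtain ⟨cκ, hκ0, hκ1⟩ := hcrd (baseW T.W κ) X ι (bK κ b)
      have hκ : Crd (bK κ b) cκ := ⟨hκ0, hκ1⟩
      have hfix := Fix.spec (S := absSys D) hb hc hC hκ x fun f hf => hx f hf
      obtain ⟨y, hy⟩ := exists_cls hc hκ n J
      have h1 := kap T.W X (absSys D) (hodgeSys T) ℂ κ hk (opK κ b x) hfix n a ha y
      rw [← hy, hκ.pwo, mat_opK, hc.em hκ] at h1
      exact h1
  have hM : ∀ x ∈ G, ∀ y ∈ G, (fun i j => ∑ k, x i k * y k j) ∈ G := by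
    intro x hx y hy
    have h1 := mat_mul (b := bK ℂ b) (opK ℂ b x) (opK ℂ b y)
    have h2 := Fix.mul hx hy
    rw [mat_opK, mat_opK] at h1
    have h3 := opK_mat (b := b) (opK ℂ b x * opK ℂ b y)
    rw [h1] at h3
    rw [← h3] at h2
    exact h2
  have h1 : (fun i j => if i = j then 1 else 0) ∈ G := by
    have h1 := mat_one (b := bK ℂ b)
    have h2 := Fix.one (S := absSys D) (X := X) (L := ℂ)
    have h3 := opK_mat (b := b) (1 : Module.End (CW T).K ((CW T).H X))
    rw [← h3, h1] at h2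
    exact h2
  have hI : ∀ x ∈ G, ∃ y ∈ G, (fun i j => ∑ k, x i k * y k j) =
      fun i j => if i = j then 1 else 0 := by
    intro x hx
    obtain ⟨y, hy, hxy, -⟩ := Fix.exists_inv hx
    refine ⟨mat (bK ℂ b) y, ?_, ?_⟩
    · have h3 := opK_mat (b := b) y
      rw [← h3] at hy
      exact hy
    · have h4 := mat_mul (b := bK ℂ b) (opK ℂ b x) y
      rw [hxy, mat_opK, mat_one] at h4
      exact h4.symm
  have hE : ∃ e ∈ fam (hodgeSys T) c 1, e ≠ 0 ∧ ∀ x ∈ G,
      tp x 1 (fun I => algebraMap T.W.K ℂ (e I)) = fun I => algebraMap T.W.K ℂ (e I) := by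
    refine ⟨c 0 (1 : T.W.H X), ⟨1, (hodgeSys T).one X, rfl⟩, ?_, fun x hx => ?_⟩
    · intro h0
      have h2 : (1 : T.W.H X) = 0 := (LinearEquiv.map_eq_zero_iff (c 0)).1 h0
      exact one_ne_zero h2
    · exact (fix_iff hc hC x 0 (1 : T.W.H X)).1 (hx.fix 0 1 ((absSys D).one X))
  have hT : ∀ n, 0 < n → ∀ v : (Fin n → ι) → ℂ, (∀ x ∈ G, tp x n v = v) →
      v ∈ Submodule.span ℂ {u | ∃ a ∈ fam (absSys D) c n,
        u = fun I => algebraMap T.W.K ℂ (a I)} := by
    intro n hn v hv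
    obtain - | n := n
    · exact absurd hn (lt_irrefl 0)
    · obtain ⟨v', hv'⟩ : ∃ v' : (CW T).H (pw X n), cC n v' = v := (cC n).surjective v
      have h2 := tan T D X n v' fun x hx => ?_
      · have h3 := Submodule.mem_map_of_mem (f := (cC n).toLinearMap) h2
        rw [Submodule.map_span] at h3
        have h4 : (cC n).toLinearMap v' = v := hv'
        rw [h4] at h3
        refine Submodule.span_mono ?_ h3
        rintro _ ⟨_, ⟨a, ha, rfl⟩, rfl⟩
        exact ⟨c n a, ⟨a, ha, rfl⟩, hc.em hC n a⟩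
      · have h3 : mat (bK ℂ b) x ∈ G := by
          have h3 := opK_mat (b := b) x
          rw [← h3] at hx
          exact hx
        apply (cC n).injective
        rw [hC.pwo, hv']
        exact hv _ h3
  obtain ⟨m, C, h⟩ := fin2 dim T.W.K ℂ ι (fam (absSys D) c) (fam (hodgeSys T) c) G h1 hM hI
    (fam_mul hc) hE hT (fin1 T.W.K ℂ ι _ G hL)
  refine ⟨m, C, fun n => ?_⟩
  have h2 := h (n + 1) n.succ_pos
  have h3 : finrank T.W.K (fam (absSys D) c (m + (n + 1))) =
      finrank T.W.K ((absSys D).C (pw X (m + n))) := finrank_fam (m + n)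
  rw [finrank_fam, h3] at h2
  exact h2

end Typ

end Pool.Agent.Helper7K9.FI
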