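import Pool.Agent.Helper7K9.FI.Stm

/-!
# A bound for the dimensions implies that the index is finite
-/

set_option autoImplicit false

open CategoryTheory AlgebraicGeometry TensorProduct Filter Topology

universe u v

namespace Pool.Agent.Helper7K9.FI

open Module
open Pool.Agent.H914 Pool.Agent.H914.VarClass Pool.Agent.H914.VarClass.Obj
  Pool.Agent.H914.WeilCohomology
open Pool.Agent.Y133.Half
open Pool.Agent.Helper7K9.FP

variable {k : Type u} [Field k] {𝒱 : VarClass k} {ops : CycleOps 𝒱}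

lemma AsyL.asy_aux {t β c : ℕ → ℕ} {b m C : ℕ} (hc : ∀ n, 0 < c n)
    (hβ : ∀ j : ℕ, Tendsto (fun n => (β (n + 1 + j) : ℝ) / c n) atTop (𝓝 ((b : ℝ) ^ j)))
    (ht : ∀ n, t n ≤ C * β (m + n)) {N : ℕ∞}
    (hN : Tendsto (fun n => (t n : ENNReal) / β n) atTop (𝓝 (N : ENNReal))) : N ≠ ⊤ := by
  intro hT
  subst hT
  have h0 := (hβ 0).eventually (lt_mem_nhds (a := (1 / 2 : ℝ)) (by norm_num))
  have h1 := (hβ m).eventually (gt_mem_nhds (lt_add_one ((b : ℝ) ^ m)))
  have h2 := hN.eventually (lt_mem_nhds (a := ((C * (2 * (b ^ m + 1)) : ℕ) : ENNReal))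
    (by
      show ((C * (2 * (b ^ m + 1)) : ℕ) : ENNReal) < ((⊤ : ℕ∞) : ENNReal)
      rw [ENat.toENNReal_top]
      exact ENNReal.natCast_lt_top _))
  have h3 := (tendsto_add_atTop_nat 1).eventually h2
  obtain ⟨n, h0, h1, h3⟩ := (h0.and (h1.and h3)).exists
  have hcn : (0 : ℝ) < c n := by exact_mod_cast hc n
  rw [lt_div_iff₀ hcn] at h0
  rw [div_lt_iff₀ hcn] at h1
  rw [add_zero] at h0
  have hb : (0 : ℝ) < β (n + 1) := by linarith [h0]
  have hbN : 0 < β (n + 1) := by exact_mod_cast hb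
  have h4 : (β (m + (n + 1)) : ℝ) ≤ 2 * ((b : ℝ) ^ m + 1) * β (n + 1) := by
    rw [show m + (n + 1) = n + 1 + m by ring]
    have hp : (0 : ℝ) ≤ (b : ℝ) ^ m + 1 := by positivity
    nlinarith
  have h5 : β (m + (n + 1)) ≤ 2 * (b ^ m + 1) * β (n + 1) := by exact_mod_cast h4
  have h6 : t (n + 1) ≤ C * (2 * (b ^ m + 1)) * β (n + 1) := by
    refine (ht (n + 1)).trans ?_
    rw [mul_assoc]
    exact Nat.mul_le_mul_left _ h5
  have h7 : (t (n + 1) : ENNReal) / β (n + 1) ≤ ((C * (2 * (b ^ m + 1)) : ℕ) : ENNReal) := by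
    refine ENNReal.div_le_of_le_mul ?_
    exact_mod_cast h6
  exact absurd h3 (not_lt.mpr h7)

theorem asy (W : WeilCohomology.{u, v} ops) [CharZero W.K] : S_ASY W := by
  intro X _ S hS t m C ht N hN
  have hcl : IsAlgClosed (baseW W (AlgebraicClosure W.K)).K :=
    (inferInstance : IsAlgClosed (AlgebraicClosure W.K))
  have h := Pool.Agent.Y133.Half.Sys.isPowers_base (S := S) (X := X) hS (AlgebraicClosure W.K)
  have h1 := fun n => h.cmp_pos n
  have h2 := fun j => h.tendsto_cmp j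
  exact AsyL.asy_aux (β := fun n => finrank W.K (S.C (pw X n)))
    (b := finrank (baseW W (AlgebraicClosure W.K)).K ((baseW W (AlgebraicClosure W.K)).H X))
    h1 h2 ht hN

end Pool.Agent.Helper7K9.FI
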