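import Pool.Agent.Helper7K9.FI.Crd0

/-!
# The index is finite if the dimensions are bounded
-/

open CategoryTheory AlgebraicGeometry TensorProduct

open scoped ENNReal

universe u v

namespace Pool.Agent.Helper7K9.FI

open Module
open Pool.Agent.H914 Pool.Agent.H914.VarClass Pool.Agent.H914.VarClass.Obj
  Pool.Agent.H914.WeilCohomology
open Pool.Agent.Y133.Half

variable {k : Type u} [Field k] {𝒱 : VarClass k} {ops : CycleOps 𝒱}

/-- The limit of the quotients is finite. -/
lemma asy_aux (s t : ℕ → ℕ) (h m C : ℕ) (hh : 0 < h) (hs : ∀ n, 0 < s n)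
    (hs' : ∀ n, s n ≤ h ^ (n + 1)) (ht : ∀ n, t n ≤ C * s (m + n))
    (hl : Filter.Tendsto (fun n => (t n : ENNReal) / s n) Filter.atTop (nhds ⊤)) : False := by
  have h1 : ∀ᶠ n in Filter.atTop, (((C + 1) * (2 * h ^ m) : ℕ) : ENNReal) < (t n : ENNReal) / s n :=
    hl.eventually (lt_mem_nhds (ENNReal.natCast_lt_top _))
  obtain ⟨n₀, h2⟩ := Filter.eventually_atTop.1 h1
  have h3 : ∀ n, n₀ ≤ n → 2 * h ^ m * s n ≤ s (m + n) := by
    intro n hn
    have h4 := (h2 n hn).le
    have hs0 : (s n : ENNReal) ≠ 0 := by exact_mod_cast (hs n).ne'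
    rw [ENNReal.le_div_iff_mul_le (Or.inl hs0) (Or.inl (ENNReal.natCast_ne_top _))] at h4
    have h5 : (C + 1) * (2 * h ^ m) * s n ≤ t n := by exact_mod_cast h4
    have h6 : (C + 1) * (2 * h ^ m * s n) ≤ (C + 1) * s (m + n) := by
      calc (C + 1) * (2 * h ^ m * s n) = (C + 1) * (2 * h ^ m) * s n := by ring
        _ ≤ t n := h5
        _ ≤ C * s (m + n) := ht n
        _ ≤ (C + 1) * s (m + n) := Nat.mul_le_mul_right _ (Nat.le_succ C)
    exact Nat.le_of_mul_le_mul_left h6 C.succ_pos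
  have h4 : ∀ j, 2 ^ j * h ^ (j * m) ≤ s (j * m + n₀) := by
    intro j
    induction j with
    | zero => simpa using Nat.succ_le_of_lt (hs n₀)
    | succ j ih =>
      have h5 := h3 (j * m + n₀) (Nat.le_add_left _ _)
      have h6 : m + (j * m + n₀) = (j + 1) * m + n₀ := by ring
      rw [h6] at h5
      refine le_trans ?_ h5
      calc 2 ^ (j + 1) * h ^ ((j + 1) * m) = 2 * h ^ m * (2 ^ j * h ^ (j * m)) := by ring
        _ ≤ 2 * h ^ m * s (j * m + n₀) := Nat.mul_le_mul_left _ ih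
  have h5 := (h4 (h ^ (n₀ + 1))).trans (hs' _)
  have h6 : h ^ (h ^ (n₀ + 1) * m + n₀ + 1) = h ^ (n₀ + 1) * h ^ (h ^ (n₀ + 1) * m) := by ring
  rw [h6] at h5
  have h7 := Nat.le_of_mul_le_mul_right h5 (pow_pos hh _)
  exact absurd (Nat.lt_two_pow_self (n := h ^ (n₀ + 1))) (not_lt.2 h7)

/-- The index is finite if the dimensions are bounded. -/
theorem asy0 (W : WeilCohomology.{u, v} ops) [CharZero W.K] : S_ASY W := by
  intro X _ S _ t m C ht N hN h
  subst h
  let b := Module.finBasis W.K (W.H X)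
  refine asy_aux (fun n => finrank W.K (S.C (pw X n))) t (finrank W.K (W.H X)) m C ?_ ?_ ?_ ht hN
  · exact Module.finrank_pos
  · intro n
    exact Sys.finrank_pos_pw (X := X) S n
  · intro n
    refine (Submodule.finrank_le _).trans ?_
    rw [LinearEquiv.finrank_eq (crdE W X b n), Module.finrank_fintype_fun_eq_card,
      Fintype.card_fun, Fintype.card_fin, Fintype.card_fin]

end Pool.Agent.Helper7K9.FI
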