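import Pool.Agent.Helper7K9.FI.Mat

/-!
# Coordinates and the extension of the coefficients
-/

open CategoryTheory AlgebraicGeometry TensorProduct

universe u v

namespace Pool.Agent.Helper7K9.FI

open Module
open Pool.Agent.H914 Pool.Agent.H914.VarClass Pool.Agent.H914.VarClass.Obj
  Pool.Agent.H914.WeilCohomology
open Pool.Agent.Y133.Half
open Pool.Agent.Y121.AH (em ex em_smul em_add em_mul em_map em_tr em_gr em_zero em_xp tmul_ind
  tmul_eq)
open Pool.Agent.Helper7K9.FP
open Pool.Agent.Y121 (AH.em)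

variable {k : Type u} [Field k] {𝒱 : VarClass k} {ops : CycleOps 𝒱}

section Hom

/-- A homogeneous basis. -/
structure HBas {V : WeilCohomology.{u, 0} ops} {X : 𝒱.Obj} {ι : Type} (b : Basis ι V.K (V.H X))
    (deg : ι → ℕ) : Prop where
  mem : ∀ p, b p ∈ V.gr X (deg p)
  rep : ∀ l, ∀ v ∈ V.gr X l, ∀ p, deg p ≠ l → b.repr v p = 0

lemma exists_hbas (V : WeilCohomology.{u, 0} ops) (X : 𝒱.Obj) :
    ∃ (ι : Type) (_ : Fintype ι) (b : Basis ι V.K (V.H X)) (deg : ι → ℕ), HBas b deg := by
  classical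
  let w : ∀ i, Basis (Fin (finrank V.K (V.gr X i))) V.K (V.gr X i) := fun i =>
    Module.finBasis V.K (V.gr X i)
  let b := (V.isInternal X).collectedBasis w
  refine ⟨_, FiniteDimensional.fintypeBasisIndex b, b, fun p => p.1, fun p => ?_,
    fun l v hv p hp => ?_⟩
  · exact (V.isInternal X).collectedBasis_mem w p
  · obtain ⟨i, a⟩ := p
    exact (V.isInternal X).collectedBasis_repr_of_mem_ne w (Ne.symm hp) hv

end Hom

section Base

variable {W : WeilCohomology.{u, 0} ops} {X : 𝒱.Obj} {ι : Type} (κ : Type) [Field κ]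
  [Algebra W.K κ]

/-- The basis after the extension of the coefficients. -/
noncomputable def bK (b : Basis ι W.K (W.H X)) :
    Basis ι (baseW W κ).K ((baseW W κ).H X) :=
  (b.baseChange κ : Basis ι κ (κ ⊗[W.K] W.H X))

variable {κ}

lemma bK_apply (b : Basis ι W.K (W.H X)) (p : ι) : bK κ b p = em W κ (b p) :=
  Basis.baseChange_apply κ b p

lemma bK_repr (b : Basis ι W.K (W.H X)) (a : W.H X) (p : ι) :
    (bK κ b).repr (em W κ a) p = ex W κ (b.repr a p) := by
  have h := Basis.baseChange_repr_tmul (S := κ) b (1 : κ) a p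
  rw [Algebra.smul_def, mul_one] at h
  exact h

lemma HBas.base {b : Basis ι W.K (W.H X)} {deg : ι → ℕ} (h : HBas b deg) :
    HBas (bK κ b) deg where
  mem p := by rw [bK_apply]; exact em_gr (h.mem p)
  rep l v hv p hp := by
    have hv' : v ∈ Submodule.span κ
        ((W.gr X l).map (TensorProduct.mk W.K κ (W.H X) 1) : Set (κ ⊗[W.K] W.H X)) := by
      rw [← Submodule.baseChange_eq_span]
      exact hv
    clear hv
    induction hv' using Submodule.span_induction with
    | mem x hx =>
      obtain ⟨a, ha, rfl⟩ := hx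
      have h1 : (bK κ b).repr (em W κ a) p = 0 := by
        rw [bK_repr, h.rep l a ha p hp]
        exact map_zero (algebraMap W.K κ)
      exact h1
    | zero =>
      have h1 : (bK κ b).repr (0 : (baseW W κ).H X) p = 0 := by
        rw [map_zero]; rfl
      exact h1
    | add x y _ _ hx hy =>
      have h1 : (bK κ b).repr ((show (baseW W κ).H X from x) + y) p = 0 := by
        rw [map_add, Finsupp.add_apply, hx, hy, add_zero]
      exact h1
    | smul s x _ hx =>
      have h1 : (bK κ b).repr ((show (baseW W κ).K from s) • (show (baseW W κ).H X from x)) p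
          = 0 := by
        rw [map_smul, Finsupp.smul_apply, hx, smul_zero]
      exact h1

variable {b : Basis ι W.K (W.H X)} [Fintype ι]
  {c : ∀ n, W.H (pw X n) ≃ₗ[W.K] ((Fin (n + 1) → ι) → W.K)}
  {c' : ∀ n, (baseW W κ).H (pw X n) ≃ₗ[(baseW W κ).K] ((Fin (n + 1) → ι) → (baseW W κ).K)}

lemma Crd.em (hc : Crd b c) (hc' : Crd (bK κ b) c') : ∀ (n : ℕ) (a : W.H (pw X n)),
    c' n (em W κ a) = fun J => ex W κ (c n a J)
  | 0, a => by
    funext J
    have h1 : c' 0 (AH.em W κ a) J = _ := hc'.zero (AH.em W κ a) J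
    have h2 : c 0 a J = _ := hc.zero a J
    rw [h1, h2]
    exact bK_repr b a (J 0)
  | n + 1, a => by
    refine pw_ind (p := fun a => c' (n + 1) (AH.em W κ a) = fun J => ex W κ (c (n + 1) a J))
      ?_ ?_ a
    · intro a a' ha ha'
      rw [em_add, map_add, ha, ha', map_add]
      funext J
      exact (map_add (algebraMap W.K κ) _ _).symm
    · intro a a'
      have h0 : AH.em W κ (xp W a a' : W.H ((pw X n).prod X)) =
          (xp (baseW W κ) (AH.em W κ a) (AH.em W κ a') :
            (baseW W κ).H ((pw X n).prod X)) := em_xp a a'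
      funext J
      refine (congrArg (fun z => c' (n + 1) z J) h0).trans ?_
      rw [hc'.succ, Crd.em hc hc' n a, bK_repr, hc.succ]
      exact (map_mul (algebraMap W.K κ) _ _).symm

end Base

section Gr

variable {V : WeilCohomology.{u, 0} ops} {X : 𝒱.Obj} {ι : Type} {b : Basis ι V.K (V.H X)}
  {deg : ι → ℕ}

lemma HBas.mat_eq (h : HBas b deg) {x : Module.End V.K (V.H X)} (hx : IsGr V x) {p i : ι}
    (hp : deg p ≠ deg i) : mat b x p i = 0 :=
  h.rep (deg i) _ (hx _ _ (h.mem i)) p hp

variable [Fintype ι]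

lemma HBas.opm (h : HBas b deg) {m : ι → ι → V.K} (hm : ∀ p i, deg p ≠ deg i → m p i = 0) :
    IsGr V (opm b m) := by
  intro l a ha
  rw [← b.sum_repr a, map_sum]
  refine Submodule.sum_mem _ fun p _ => ?_
  rw [map_smul]
  by_cases hp : deg p = l
  · refine Submodule.smul_mem _ _ ?_
    rw [opm_basis]
    refine Submodule.sum_mem _ fun q _ => ?_
    by_cases hq : deg q = deg p
    · refine Submodule.smul_mem _ _ ?_
      rw [← hp, ← hq]
      exact h.mem q
    · rw [hm q p hq, zero_smul]
      exact Submodule.zero_mem _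
  · rw [h.rep l a ha p hp, zero_smul]
    exact Submodule.zero_mem _

lemma tr_basis (x : Module.End V.K (V.H X)) (i j : ι) : V.tr X (x (b i) * x (b j)) =
    ∑ p, ∑ q, mat b x p i * mat b x q j * V.tr X (b p * b q) := by
  have h1 : ∀ i, x (b i) = ∑ p, mat b x p i • b p := fun i => (b.sum_repr (x (b i))).symm
  rw [h1 i, h1 j, Finset.sum_mul_sum, map_sum]
  refine Finset.sum_congr rfl fun p _ => ?_
  rw [map_sum]
  refine Finset.sum_congr rfl fun q _ => ?_
  rw [smul_mul_smul_comm, map_smul, smul_eq_mul]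

lemma iso_of {x : Module.End V.K (V.H X)} (h : ∀ i j, ∑ p, ∑ q, mat b x p i * mat b x q j *
    V.tr X (b p * b q) = V.tr X (b i * b j)) (a a' : V.H X) :
    V.tr X (x a * x a') = V.tr X (a * a') := by
  have h1 : ∀ i a', V.tr X (x (b i) * x a') = V.tr X (b i * a') := by
    intro i a'
    have h2 : (V.tr X) ∘ₗ (LinearMap.mulLeft V.K (x (b i))) ∘ₗ x =
        (V.tr X) ∘ₗ (LinearMap.mulLeft V.K (b i)) := by
      refine b.ext fun j => ?_
      exact (tr_basis x i j).trans (h i j)
    exact congrArg (fun f : V.H X →ₗ[V.K] V.K => f a') h2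
  have h2 : (V.tr X) ∘ₗ (LinearMap.mulRight V.K (x a')) ∘ₗ x =
      (V.tr X) ∘ₗ (LinearMap.mulRight V.K a') :=
    b.ext fun j => h1 j a'
  exact congrArg (fun f : V.H X →ₗ[V.K] V.K => f a) h2

end Gr

end Pool.Agent.Helper7K9.FI
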