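import Pool.Agent.Helper7K9.FI.Stm

/-!
# Coordinates on the cohomology of the powers: existence
-/

open CategoryTheory AlgebraicGeometry TensorProduct

universe u v

namespace Pool.Agent.Helper7K9.FI

open Module
open Pool.Agent.H914 Pool.Agent.H914.VarClass Pool.Agent.H914.VarClass.Obj
  Pool.Agent.H914.WeilCohomology
open Pool.Agent.Y133.Half

variable {k : Type u} [Field k] {𝒱 : VarClass k} {ops : CycleOps 𝒱}

/-- Split off the last coordinate. -/
def splitLast (ι : Type) (n : ℕ) : (Fin (n + 2) → ι) ≃ (Fin (n + 1) → ι) × ι where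
  toFun J := (fun k => J k.castSucc, J (Fin.last (n + 1)))
  invFun p := Fin.snoc p.1 p.2
  left_inv J := by
    funext k
    refine Fin.lastCases ?_ (fun k => ?_) k
    · exact Fin.snoc_last (α := fun _ => ι) (J (Fin.last (n + 1))) (fun k => J k.castSucc)
    · exact Fin.snoc_castSucc (α := fun _ => ι) (J (Fin.last (n + 1))) (fun k => J k.castSucc) k
  right_inv p := by
    refine Prod.ext (funext fun k => ?_) ?_
    · exact Fin.snoc_castSucc (α := fun _ => ι) p.2 p.1 k
    · exact Fin.snoc_last (α := fun _ => ι) p.2 p.1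

/-- The coordinates. -/
noncomputable def crdE (W : WeilCohomology.{u, v} ops) (X : 𝒱.Obj) {ι : Type} [Fintype ι]
    (b : Basis ι W.K (W.H X)) : ∀ n, W.H (pw X n) ≃ₗ[W.K] ((Fin (n + 1) → ι) → W.K)
  | 0 => (b.equivFun.trans (LinearEquiv.funCongrLeft W.K W.K (Equiv.funUnique (Fin 1) ι)) :
      W.H X ≃ₗ[W.K] ((Fin 1 → ι) → W.K))
  | n + 1 =>
    (((kappa W (pw X n) X).symm.trans (TensorProduct.congr (crdE W X b n) b.equivFun)).trans
      ((Pi.basisFun W.K (Fin (n + 1) → ι)).tensorProduct (Pi.basisFun W.K ι)).equivFun).trans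
      (LinearEquiv.funCongrLeft W.K W.K (splitLast ι n))

/-- Coordinates on the cohomology of the powers. -/
theorem crd0 (W : WeilCohomology.{u, v} ops) : S_CRD W := by
  intro X ι _ b
  refine ⟨crdE W X b, fun a J => rfl, fun n a a' J => ?_⟩
  have h1 : (kappa W (pw X n) X).symm (xp W a a') = a ⊗ₜ a' := by
    rw [LinearEquiv.symm_apply_eq, kappa_tmul]
    rfl
  have h2 : crdE W X b (n + 1) (xp W a a' : W.H ((pw X n).prod X)) J =
      ((Pi.basisFun W.K (Fin (n + 1) → ι)).tensorProduct (Pi.basisFun W.K ι)).equivFun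
        (TensorProduct.congr (crdE W X b n) b.equivFun
          ((kappa W (pw X n) X).symm (xp W a a'))) (splitLast ι n J) := rfl
  rw [h2, h1, TensorProduct.congr_tmul, Basis.equivFun_apply, splitLast]
  simp [Basis.tensorProduct_repr_tmul_apply, mul_comm]

end Pool.Agent.Helper7K9.FI
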