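import Pool.Agent.Helper7K9.FI.Asm
import Pool.Agent.Helper7K9.FI.Crd0
import Pool.Agent.Helper7K9.FI.Asy0

/-!
# The finiteness of the index
-/

open CategoryTheory AlgebraicGeometry

universe u v

namespace Pool.Agent.Helper7K9.FI

open Module
open Pool.Agent.H914 Pool.Agent.H914.VarClass Pool.Agent.H914.VarClass.Obj
  Pool.Agent.H914.WeilCohomology
open Pool.Agent.Y133.Half (pw)
open Pool.Agent.Y121 Pool.Agent.Y121.AHS Pool.Agent.Y121.AHS.Full
open Pool.Agent.Helper7K9.FP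

variable {k : Type u} [Field k] {𝒱 : VarClass k} {ops : CycleOps 𝒱}

/-- **The finiteness of the index.** -/
theorem finite_index (T : AHS.HodgeTheory ops) (D : AHS.Full.Conjugates T) (X : 𝒱.Obj) [Nontrivial (T.W.H X)]
    (h4 : ∀ c, AHS.IsHodge T (pw X 3) (2 * X.dim) c → AHS.Full.IsAbsHodge D (pw X 3) (2 * X.dim) c)
    (hz : ∀ z : T.W.H (X.prod X), IsCentral z → z = 0) :
    ∃ N : ℕ, 1 ≤ N ∧
      HasIndex (fun n => AHS.hodgeDim T (pw X n)) (fun n => AHS.Full.absDim D (pw X n)) N ∧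
      (∀ i, ∃ e : Fin N → ∀ a, D.L i a, SpansRing e ∧ ∀ n j, GivenBy D i e (pw X n) j) ∧
      FewGenerators D X N := by
  obtain ⟨N, h1, h2, -, -, h5, h6⟩ := index_law T D X
  have hnt : Nontrivial ((toH T).W.H X) := ‹Nontrivial (T.W.H X)›
  have hk := kills (T := toH T) (X := X) (D := AHS.Full.toD D) (mid_main _ (prj _)) (dop_main _)
    (hyp_conv h4) fun z hc => hz z (central_of hc)
  obtain ⟨m, C, hb⟩ := bound (T := toH T) (X := X) (D := AHS.Full.toD D) crd0 hk
  have hN : N ≠ ⊤ := by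
    refine asy0 (toH T).W X (AH.absSys (AHS.Full.toD D))
      (fun n => AH.abs_nondeg (AHS.Full.toD D) (pw X n))
      (fun n => finrank (toH T).W.K ((AH.hodgeSys (toH T)).C (pw X n))) m C hb N ?_
    refine Filter.Tendsto.congr (fun n => ?_) h2
    change (AHS.hodgeDim T (pw X n) : ENNReal) / (AHS.Full.absDim D (pw X n) : ENNReal) = _
    rw [← Full.absDim_eq]
    rfl
  lift N to ℕ using hN
  exact ⟨N, by exact_mod_cast h1, h2, h5 N rfl, h6 (ENat.natCast_ne_top N)⟩

end Pool.Agent.Helper7K9.FI
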