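import Pool.Agent.Helper7K9.FI.Tp

/-!
# Finitely many restrictions: generic points of the components
-/

namespace Pool.Agent.Helper7K9.FI

open MvPolynomial

namespace Fin1L

variable {Ω ι : Type} [Field Ω]

/-- The ideal of the polynomials which vanish on `G`. -/
def van (G : Set (ι → ι → Ω)) : Ideal (MvPolynomial (ι × ι) Ω) where
  carrier := {f | ∀ g ∈ G, aeval (fun p : ι × ι => g p.1 p.2) f = 0}
  add_mem' := by
    intro a b ha hb g hg
    rw [map_add, ha g hg, hb g hg, add_zero]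
  zero_mem' := by
    intro g _
    rw [map_zero]
  smul_mem' := by
    intro c a ha g hg
    rw [smul_eq_mul, map_mul, ha g hg, mul_zero]

lemma mem_van {G : Set (ι → ι → Ω)} {f : MvPolynomial (ι × ι) Ω} :
    f ∈ van G ↔ ∀ g ∈ G, aeval (fun p : ι × ι => g p.1 p.2) f = 0 := Iff.rfl

/-- The coordinate function of the tensor power. -/
noncomputable def pol [Fintype ι] (n : ℕ) (v : (Fin n → ι) → Ω) (J : Fin n → ι) :
    MvPolynomial (ι × ι) Ω :=
  ∑ I : Fin n → ι, (∏ k, X (J k, I k)) * C (v I)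

lemma aeval_pol [Fintype ι] {κ : Type} [Field κ] [Algebra Ω κ] (x : ι → ι → κ) (n : ℕ)
    (v : (Fin n → ι) → Ω) (J : Fin n → ι) :
    aeval (fun p : ι × ι => x p.1 p.2) (pol n v J) = tp x n (fun I => algebraMap Ω κ (v I)) J := by
  simp only [pol, tp, map_sum, map_mul, map_prod, aeval_X, aeval_C]

end Fin1L

open Fin1L in
theorem fin1 : S_FIN1 := by
  classical
  intro K Ω ι _ _ _ _ H G hx
  set J₀ := van G with hJ₀
  have hfin : J₀.minimalPrimes.Finite := Ideal.finite_minimalPrimes_of_isNoetherianRing _ J₀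
  have hch : ∀ g ∈ G, ∃ q ∈ J₀.minimalPrimes,
      q ≤ RingHom.ker (aeval (fun p : ι × ι => g p.1 p.2) : MvPolynomial (ι × ι) Ω →ₐ[Ω] Ω) := by
    intro g hg
    have : (RingHom.ker (aeval (fun p : ι × ι => g p.1 p.2) :
        MvPolynomial (ι × ι) Ω →ₐ[Ω] Ω)).IsPrime := RingHom.ker_isPrime _
    apply Ideal.exists_minimalPrimes_le
    intro f hf
    rw [RingHom.mem_ker]
    exact hf g hg
  have hgen : ∀ P ∈ J₀.minimalPrimes, ∀ n, ∀ w ∈ H n, ∀ J, ∃ c : Ω, ∀ g ∈ G,
      P ≤ RingHom.ker (aeval (fun p : ι × ι => g p.1 p.2) : MvPolynomial (ι × ι) Ω →ₐ[Ω] Ω) →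
      tp g n (fun I => algebraMap K Ω (w I)) J = c := by
    intro P hP n w hw J
    have : P.IsPrime := hP.1.1
    have hle : J₀ ≤ P := hP.1.2
    let κ := FractionRing (MvPolynomial (ι × ι) Ω ⧸ P)
    let φ : MvPolynomial (ι × ι) Ω →ₐ[Ω] κ :=
      (IsScalarTower.toAlgHom Ω (MvPolynomial (ι × ι) Ω ⧸ P) κ).comp (Ideal.Quotient.mkₐ Ω P)
    have hφ : ∀ f, φ f = 0 ↔ f ∈ P := by
      intro f
      have h1 : φ f = algebraMap (MvPolynomial (ι × ι) Ω ⧸ P) κ (Ideal.Quotient.mk P f) := rfl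
      rw [h1, IsFractionRing.to_map_eq_zero_iff, Ideal.Quotient.eq_zero_iff_mem]
    let x : ι → ι → κ := fun i j => φ (X (i, j))
    have hφx : φ = aeval (fun p : ι × ι => x p.1 p.2) := by
      rw [aeval_unique φ]
      rfl
    obtain ⟨c, hc⟩ := hx κ x (by
      intro f hf
      rw [← hφx, hφ]
      exact hle hf) n w hw J
    refine ⟨c, fun g hg hgP => ?_⟩
    have h2 : pol n (fun I => algebraMap K Ω (w I)) J - C c ∈ P := by
      rw [← hφ, hφx, map_sub, aeval_pol, aeval_C, hc, sub_self]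
    have h3 := hgP h2
    rw [RingHom.mem_ker, map_sub, aeval_pol, aeval_C, sub_eq_zero] at h3
    exact h3
  choose! q hq hq' using hch
  let _ : Fintype J₀.minimalPrimes := hfin.fintype
  refine ⟨Fintype.card J₀.minimalPrimes + 1, fun g => if h : g ∈ G then
    (Fintype.equivFin J₀.minimalPrimes ⟨q g, hq g h⟩).castSucc else Fin.last _, ?_⟩
  intro x hxG y hyG hxy n w hw
  have hqq : q x = q y := by
    simp only [hxG, hyG, dif_pos, Fin.castSucc_inj, EmbeddingLike.apply_eq_iff_eq,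
      Subtype.mk.injEq] at hxy
    exact hxy
  funext J
  obtain ⟨c, hc⟩ := hgen (q x) (hq x hxG) n w hw J
  rw [hc x hxG (hq' x hxG), hc y hyG (hqq ▸ hq' y hyG)]

end Pool.Agent.Helper7K9.FI
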