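import Pool.Agent.Helper7K9.FI.Pwo
import Pool.Agent.Helper7K9.FP.Algd

/-!
# Operators over an extension of an algebraically closed field
-/

open CategoryTheory AlgebraicGeometry TensorProduct

universe u v

namespace Pool.Agent.Helper7K9.FI

open Module
open Pool.Agent.H914 Pool.Agent.H914.VarClass Pool.Agent.H914.VarClass.Obj
  Pool.Agent.H914.WeilCohomology
open Pool.Agent.Y133.Half
open Pool.Agent.Y121.AH (em ex em_smul em_add em_mul em_map em_tr em_gr em_zero em_xp tmul_ind tmul_eq)
open Pool.Agent.Helper7K9.FP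

variable {k : Type u} [Field k] {𝒱 : VarClass k} {ops : CycleOps 𝒱}
  {W : WeilCohomology.{u, 0} ops} {X Y : 𝒱.Obj} {κ : Type} [Field κ] [Algebra W.K κ]

/-- The components of the derivation given by an operator. -/
lemma del_cmo (φ : κ →ₗ[W.K] W.K) (y : Module.End (baseW W κ).K ((baseW W κ).H X)) :
    ∀ (n : ℕ) (b : W.H (pw X n)),
      del W (cmo φ y) n b = cm φ (pw X n) (del (baseW W κ) y n (em W κ b))
  | 0, _ => rfl
  | n + 1, b => by
    refine pw_ind (p := fun b => del W (cmo φ y) (n + 1) b =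
      cm φ (pw X (n + 1)) (del (baseW W κ) y (n + 1) (em W κ b))) ?_ ?_ b
    · intro a b ha hb; rw [map_add, ha, hb, em_add, map_add, map_add]
    · intro a b
      have h1 : del (baseW W κ) y (n + 1) (em W κ (xp W a b : W.H ((pw X n).prod X))) =
          (xp (baseW W κ) (del (baseW W κ) y n (em W κ a)) (em W κ b) +
            xp (baseW W κ) (em W κ a) (y (em W κ b)) :
              (baseW W κ).H ((pw X n).prod X)) := by
        have h0 : em W κ (xp W a b : W.H ((pw X n).prod X)) =
          (xp (baseW W κ) (em W κ a) (em W κ b) : (baseW W κ).H ((pw X n).prod X)) :=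
          em_xp a b
        exact (congrArg (fun c : (baseW W κ).H ((pw X n).prod X) =>
          (show (baseW W κ).H ((pw X n).prod X) from del (baseW W κ) y (n + 1) c)) h0).trans
          (del_succ_xp y n (em W κ a) (em W κ b))
      have h2 : cm φ ((pw X n).prod X) (xp (baseW W κ) (del (baseW W κ) y n (em W κ a))
          (em W κ b)) = xp W (cm φ (pw X n) (del (baseW W κ) y n (em W κ a))) b := by
        rw [xp_def, em_map, cm_mul_em, cm_map, xp_def]
      have h3 : cm φ ((pw X n).prod X) (xp (baseW W κ) (em W κ a) (y (em W κ b))) =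
          xp W a (cm φ X (y (em W κ b))) := by
        rw [xp_def, em_map, cm_em_mul, cm_map, xp_def]
      rw [del_succ_xp, h1, del_cmo φ y n a]
      refine Eq.trans ?_ (map_add (cm φ ((pw X n).prod X)) _ _).symm
      rw [h2, h3]
      rfl

section Der

variable (δ : Derivation W.K κ κ) (x xi : Module.End (baseW W κ).K ((baseW W κ).H X))

/-- The logarithmic derivative of the operator `x` with inverse `xi`. -/
noncomputable def ldv (h : xi * x = 1) : Module.End (baseW W κ).K ((baseW W κ).H X) where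
  toFun v := xi (dW W δ X (x v)) - dW W δ X v
  map_add' a b := by simp only [map_add]; abel
  map_smul' l a := by
    have h1 : xi (x a) = a := by
      change (xi * x) a = a
      rw [h]; rfl
    rw [map_smul, dW_smul, dW_smul, map_add, map_smul, map_smul, h1, RingHom.id_apply, smul_sub]
    abel

variable {δ x xi}

lemma dW_xp (a : (baseW W κ).H X) (b : (baseW W κ).H Y) :
    dW W δ (X.prod Y) (xp (baseW W κ) a b) =
      xp (baseW W κ) (dW W δ X a) b + xp (baseW W κ) a (dW W δ Y b) := by
  rw [xp_def, dW_mul, dW_map, dW_map]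
  rfl

lemma del_ldv (h : xi * x = 1) : ∀ (n : ℕ) (v : (baseW W κ).H (pw X n)),
    del (baseW W κ) (ldv δ x xi h) n v =
      pwo (baseW W κ) xi n (dW W δ (pw X n) (pwo (baseW W κ) x n v)) - dW W δ (pw X n) v
  | 0, _ => rfl
  | n + 1, v => by
    refine pw_ind (W := baseW W κ) (p := fun v => del (baseW W κ) (ldv δ x xi h) (n + 1) v =
      pwo (baseW W κ) xi (n + 1) (dW W δ (pw X (n + 1)) (pwo (baseW W κ) x (n + 1) v)) -
        dW W δ (pw X (n + 1)) v) ?_ ?_ v
    · intro a b ha hb
      simp only [map_add, ha, hb]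
      abel
    · intro a b
      have h1 := del_ldv h n a
      have h2 : pwo (baseW W κ) xi n (pwo (baseW W κ) x n a) = a := pwo_inv h n a
      have h3 : xi (x b) = b := by
        change (xi * x) b = b
        rw [h]; rfl
      have h4 : dW W δ (pw X (n + 1)) (xp (baseW W κ) (pwo (baseW W κ) x n a) (x b) :
          (baseW W κ).H ((pw X n).prod X)) =
          (xp (baseW W κ) (dW W δ (pw X n) (pwo (baseW W κ) x n a)) (x b) +
            xp (baseW W κ) (pwo (baseW W κ) x n a) (dW W δ X (x b)) :
              (baseW W κ).H ((pw X n).prod X)) := dW_xp _ _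
      have h5 : dW W δ (pw X (n + 1)) (xp (baseW W κ) a b :
          (baseW W κ).H ((pw X n).prod X)) =
          (xp (baseW W κ) (dW W δ (pw X n) a) b + xp (baseW W κ) a (dW W δ X b) :
              (baseW W κ).H ((pw X n).prod X)) := dW_xp _ _
      have h6 : ∀ u w : (baseW W κ).H ((pw X n).prod X),
          pwo (baseW W κ) xi (n + 1) (u + w : (baseW W κ).H ((pw X n).prod X)) =
            pwo (baseW W κ) xi (n + 1) u + pwo (baseW W κ) xi (n + 1) w := fun u w =>
        map_add _ _ _
      have h7 : (ldv δ x xi h) b = xi (dW W δ X (x b)) - dW W δ X b := rfl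
      rw [del_succ_xp, pwo_succ_xp, h4, h5, h6, pwo_succ_xp, pwo_succ_xp, h1, h2, h3, h7]
      have h8 : ∀ (u u' : (baseW W κ).H (pw X n)) (w : (baseW W κ).H X),
          xp (baseW W κ) (u - u') w = xp (baseW W κ) u w - xp (baseW W κ) u' w := by
        intro u u' w
        rw [xp, map_sub, sub_mul]; rfl
      have h9 : ∀ (u : (baseW W κ).H (pw X n)) (w w' : (baseW W κ).H X),
          xp (baseW W κ) u (w - w') = xp (baseW W κ) u w - xp (baseW W κ) u w' := by
        intro u w w'
        rw [xp, map_sub, mul_sub]; rfl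
      have h10 : ∀ p q r s : (baseW W κ).H ((pw X n).prod X),
          (p - r) + (q - s) = (p + q) - (r + s) := fun p q r s => by abel
      rw [h8, h9]
      exact h10 _ _ _ _

end Der

lemma alg_mem {Ω κ : Type} [Field Ω] [Field κ] [Algebra Ω κ] [IsAlgClosed Ω] {z : κ}
    (h : IsAlgebraic Ω z) : z ∈ Set.range (algebraMap Ω κ) :=
  h.isIntegral.mem_range_algebraMap_of_minpoly_splits (IsAlgClosed.splits _)

theorem kap (W : WeilCohomology.{u, 0} ops) : S_KAP W := by
  intro X S S' Ω κ _ _ _ _ _ _ _ _ hk x hx n b hb y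
  obtain ⟨xi, hxi, h1, h2⟩ := hx.exists_inv
  by_contra hcon
  have htr : ¬ IsAlgebraic Ω (show κ from (baseW W κ).tr (pw X n)
      (pwo (baseW W κ) x n (em W κ b) * em W κ y)) := fun h => hcon (alg_mem h)
  obtain ⟨δ, hδ⟩ := algd Ω κ _ htr
  apply hδ
  let δ' : Derivation W.K κ κ := δ.restrictScalars W.K
  let y0 : Module.End (baseW W κ).K ((baseW W κ).H X) := ldv δ' x xi h2
  have hy0 : ∀ v, y0 v = xi (dW W δ' X (x v)) - dW W δ' X v := fun v => rfl
  have hgr : IsGr (baseW W κ) y0 := by
    intro i a ha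
    rw [hy0]
    exact Submodule.sub_mem _ (hxi.gr i _ (dW_gr W δ' (hx.gr i a ha))) (dW_gr W δ' ha)
  have hadj : ∀ a c, (baseW W κ).tr X (y0 a * c) + (baseW W κ).tr X (a * y0 c) = 0 := by
    intro a c
    have e1 : x (xi (dW W δ' X (x a))) = dW W δ' X (x a) := by
      change (x * xi) _ = _
      rw [h1]; rfl
    have e2 : x (xi (dW W δ' X (x c))) = dW W δ' X (x c) := by
      change (x * xi) _ = _
      rw [h1]; rfl
    have e3 : (baseW W κ).tr X (xi (dW W δ' X (x a)) * c) =
        (baseW W κ).tr X (dW W δ' X (x a) * x c) := by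
      rw [← hx.iso, e1]
    have e4 : (baseW W κ).tr X (a * xi (dW W δ' X (x c))) =
        (baseW W κ).tr X (x a * dW W δ' X (x c)) := by
      rw [← hx.iso, e2]
    have e5 := dW_tr W δ' (x a * x c)
    have e6 := dW_tr W δ' (a * c)
    rw [dW_mul, map_add, hx.iso] at e5
    rw [dW_mul, map_add] at e6
    rw [hy0, hy0, sub_mul, mul_sub, map_sub, map_sub, e3, e4]
    linear_combination e5 - e6
  have hdel : ∀ (n : ℕ) (v : (baseW W κ).H (pw X n)), del (baseW W κ) y0 n v =
      pwo (baseW W κ) xi n (dW W δ' (pw X n) (pwo (baseW W κ) x n v)) - dW W δ' (pw X n) v :=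
    fun n v => del_ldv h2 n v
  have hkill : ∀ n, ∀ a ∈ S.C (pw X n), del (baseW W κ) y0 n (em W κ a) = 0 := by
    intro n a ha
    rw [hdel, hx.fix n a ha, dW_em, map_zero, sub_zero]
  have hanti : ∀ φ : κ →ₗ[W.K] W.K, Anti S X (cmo φ y0) := by
    intro φ
    refine ⟨?_, ?_, ?_⟩
    · intro b a ha
      refine PH.ind (p := fun a => cmo φ y0 a ∈ PH W X b) ?_ ?_ ?_ ha
      · intro i hi a ha; exact PH.of' hi (cm_gr φ (hgr i _ (em_gr ha)))
      · rw [map_zero]; exact Submodule.zero_mem _
      · intro a a' ha ha'; rw [map_add]; exact Submodule.add_mem _ ha ha'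
    · intro a c
      have e1 := hadj (em W κ a) (em W κ c)
      have e2 : W.tr X (cmo φ y0 a * c) = φ ((baseW W κ).tr X (y0 (em W κ a) * em W κ c)) := by
        rw [cmo_apply, ← cm_mul_em, cm_tr]
      have e3 : W.tr X (a * cmo φ y0 c) = φ ((baseW W κ).tr X (em W κ a * y0 (em W κ c))) := by
        rw [cmo_apply, ← cm_em_mul, cm_tr]
      rw [LinearMap.neg_apply, mul_neg, map_neg, e2, e3]
      have e4 := congrArg φ e1
      have e5 : φ ((baseW W κ).tr X (y0 (em W κ a) * em W κ c) +
          (baseW W κ).tr X (em W κ a * y0 (em W κ c))) =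
          φ ((baseW W κ).tr X (y0 (em W κ a) * em W κ c)) +
            φ ((baseW W κ).tr X (em W κ a * y0 (em W κ c))) := map_add φ _ _
      rw [e5] at e4
      exact eq_neg_of_add_eq_zero_left (e4.trans (map_zero φ))
    · intro n a ha
      rw [del_cmo, hkill n a ha, map_zero]
  have h3 : del (baseW W κ) y0 n (em W κ b) = 0 := by
    apply eq_zero_of_cm
    intro φ
    rw [← del_cmo]
    exact hk _ (fun i a ha => cm_gr φ (hgr i _ (em_gr ha))) (hanti φ) n b hb
  have h4 : dW W δ' (pw X n) (pwo (baseW W κ) x n (em W κ b)) = 0 := by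
    rw [hdel, dW_em, sub_zero] at h3
    have h5 := congrArg (pwo (baseW W κ) x n) h3
    rw [pwo_inv h1, map_zero] at h5
    exact h5
  have h5 := dW_tr W δ' (pwo (baseW W κ) x n (em W κ b) * em W κ y)
  rw [dW_mul, h4, dW_em, zero_mul, mul_zero, add_zero, map_zero] at h5
  exact h5.symm

end Pool.Agent.Helper7K9.FI
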