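import Pool.Agent.Helper7K9.FI.Pwo
import Pool.Agent.Helper7K9.FI.Fin2

/-!
# Coordinates on the cohomology of the powers
-/

open CategoryTheory AlgebraicGeometry TensorProduct

universe u v

namespace Pool.Agent.Helper7K9.FI

open Module
open Pool.Agent.H914 Pool.Agent.H914.VarClass Pool.Agent.H914.VarClass.Obj
  Pool.Agent.H914.WeilCohomology
open Pool.Agent.Y133.Half
open Pool.Agent.Y121.AH (em ex em_smul em_add em_mul em_map em_tr em_gr em_zero em_xp tmul_ind
  tmul_eq)
open Pool.Agent.Helper7K9.FP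

variable {k : Type u} [Field k] {𝒱 : VarClass k} {ops : CycleOps 𝒱}

section Tp

variable {ι R : Type} [Fintype ι] [CommSemiring R]

lemma tp_add_vec (x : ι → ι → R) (n : ℕ) (v w : (Fin n → ι) → R) :
    tp x n (v + w) = tp x n v + tp x n w := by
  funext J
  simp only [tp, Pi.add_apply, mul_add, Finset.sum_add_distrib]

lemma tp_smul_vec (x : ι → ι → R) (n : ℕ) (r : R) (v : (Fin n → ι) → R) :
    tp x n (r • v) = r • tp x n v := by
  funext J
  simp only [tp, Pi.smul_apply, smul_eq_mul, Finset.mul_sum]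
  exact Finset.sum_congr rfl fun I _ => by ring

lemma tp_one_coord (x : ι → ι → R) (v : ι → R) (J : Fin 1 → ι) :
    tp x 1 (fun I => v (I 0)) J = ∑ i, x (J 0) i * v i := by
  simp only [tp]
  refine Fintype.sum_equiv (Equiv.funUnique (Fin 1) ι) _ _ fun I => ?_
  simp

lemma tp_succ (x : ι → ι → R) (n : ℕ) (u : (Fin (n + 1) → ι) → R) (v : ι → R)
    (J : Fin (n + 2) → ι) :
    tp x (n + 2) (fun I => u (fun k => I k.castSucc) * v (I (Fin.last (n + 1)))) J =
      tp x (n + 1) u (fun k => J k.castSucc) * ∑ i, x (J (Fin.last (n + 1))) i * v i := by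
  have h1 := Fin2L.tp_add x (n + 1) 1 u (fun I => v (I 0)) (fun k => J k.castSucc)
    (fun _ => J (Fin.last (n + 1)))
  rw [tp_one_coord] at h1
  have h2 : Fin.append (fun k : Fin (n + 1) => J k.castSucc)
      (fun _ : Fin 1 => J (Fin.last (n + 1))) = J := by
    funext k
    refine Fin.lastCases ?_ (fun k => ?_) k
    · exact Fin.append_right (fun k : Fin (n + 1) => J k.castSucc)
        (fun _ : Fin 1 => J (Fin.last (n + 1))) 0
    · exact Fin.append_left (fun k : Fin (n + 1) => J k.castSucc)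
        (fun _ : Fin 1 => J (Fin.last (n + 1))) k
  rw [h2] at h1
  exact h1

end Tp

section Crd

variable {V : WeilCohomology.{u, 0} ops} {X : 𝒱.Obj} {ι : Type}

/-- Coordinates on the cohomology of the powers given by a basis. -/
structure Crd (b : Basis ι V.K (V.H X))
    (c : ∀ n, V.H (pw X n) ≃ₗ[V.K] ((Fin (n + 1) → ι) → V.K)) : Prop where
  zero : ∀ (a : V.H X) J, c 0 a J = b.repr a (J 0)
  succ : ∀ n (a : V.H (pw X n)) (a' : V.H X) J,
    c (n + 1) (xp V a a' : V.H ((pw X n).prod X)) J =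
      c n a (fun k => J k.castSucc) * b.repr a' (J (Fin.last (n + 1)))

/-- The matrix of an operator. -/
noncomputable def mat (b : Basis ι V.K (V.H X)) (x : Module.End V.K (V.H X)) : ι → ι → V.K :=
  fun i j => b.repr (x (b j)) i

variable [Fintype ι] {b : Basis ι V.K (V.H X)}
  {c : ∀ n, V.H (pw X n) ≃ₗ[V.K] ((Fin (n + 1) → ι) → V.K)}

lemma mat_apply (x : Module.End V.K (V.H X)) (v : V.H X) (i : ι) :
    b.repr (x v) i = ∑ j, mat b x i j * b.repr v j := by
  conv_lhs => rw [← b.sum_repr v]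
  simp only [map_sum, map_smul, Finsupp.coe_finset_sum, Finset.sum_apply, Finsupp.smul_apply,
    smul_eq_mul, mat]
  exact Finset.sum_congr rfl fun j _ => mul_comm _ _

lemma mat_mul (x y : Module.End V.K (V.H X)) :
    mat b (x * y) = fun i j => ∑ k, mat b x i k * mat b y k j := by
  funext i j
  change b.repr (x (y (b j))) i = _
  rw [mat_apply]
  rfl

lemma mat_one [DecidableEq ι] : mat b (1 : Module.End V.K (V.H X)) =
    fun i j => if i = j then 1 else 0 := by
  funext i j
  change b.repr (b j) i = _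
  rw [b.repr_self, Finsupp.single_apply]
  simp only [eq_comm]

/-- The operator with a given matrix. -/
noncomputable def opm (b : Basis ι V.K (V.H X)) (m : ι → ι → V.K) : Module.End V.K (V.H X) :=
  b.constr V.K fun j => ∑ i, m i j • b i

lemma opm_basis (m : ι → ι → V.K) (j : ι) : opm b m (b j) = ∑ i, m i j • b i := by
  rw [opm, b.constr_basis]

lemma mat_opm (m : ι → ι → V.K) : mat b (opm b m) = m := by
  classical
  funext i j
  rw [mat, opm_basis]
  simp [Finsupp.single_apply]

lemma opm_mat (x : Module.End V.K (V.H X)) : opm b (mat b x) = x := by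
  refine b.ext fun j => ?_
  rw [opm_basis]
  exact b.sum_repr (x (b j))

lemma Crd.pwo (hc : Crd b c) (x : Module.End V.K (V.H X)) : ∀ (n : ℕ) (v : V.H (pw X n)),
    c n (FI.pwo V x n v) = tp (mat b x) (n + 1) (c n v)
  | 0, v => by
    funext J
    have h1 : (c 0 v : (Fin 1 → ι) → V.K) = fun I => b.repr v (I 0) := by
      funext I; exact hc.zero v I
    rw [h1]
    refine Eq.trans (hc.zero _ J) ?_
    refine (mat_apply x v (J 0)).trans ?_
    exact (tp_one_coord (mat b x) (fun i => b.repr v i) J).symm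
  | n + 1, v => by
    refine pw_ind (p := fun v => c (n + 1) (FI.pwo V x (n + 1) v) =
      tp (mat b x) (n + 1 + 1) (c (n + 1) v)) ?_ ?_ v
    · intro a a' ha ha'; rw [map_add, map_add, ha, ha', map_add, tp_add_vec]
    · intro a a'
      funext J
      have h1 : (c (n + 1) (xp V a a' : V.H ((pw X n).prod X)) :
          (Fin (n + 1 + 1) → ι) → V.K) = fun I => c n a (fun k => I k.castSucc) *
            b.repr a' (I (Fin.last (n + 1))) := by
        funext I; exact hc.succ n a a' I
      have h2 := tp_succ (mat b x) n (c n a) (fun i => b.repr a' i) J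
      rw [h1]
      refine Eq.trans ?_ h2.symm
      rw [pwo_succ_xp, hc.succ, hc.pwo x n a, mat_apply]

end Crd

section Conc

variable {V : WeilCohomology.{u, 0} ops} {X : 𝒱.Obj} {ι : Type}

/-- The projection to the first factors. -/
noncomputable def q1 (X : 𝒱.Obj) (m : ℕ) : ∀ n, pw X (m + 1 + n) ⟶ pw X m
  | 0 => (fst (pw X m) X : (pw X m).prod X ⟶ pw X m)
  | n + 1 => (fst (pw X (m + 1 + n)) X ≫ q1 X m n : (pw X (m + 1 + n)).prod X ⟶ pw X m)

/-- The projection to the last factors. -/
noncomputable def q2 (X : 𝒱.Obj) (m : ℕ) : ∀ n, pw X (m + 1 + n) ⟶ pw X n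
  | 0 => (snd (pw X m) X : (pw X m).prod X ⟶ X)
  | n + 1 => (lift (fst (pw X (m + 1 + n)) X ≫ q2 X m n) (snd (pw X (m + 1 + n)) X) :
      (pw X (m + 1 + n)).prod X ⟶ (pw X n).prod X)

/-- The exterior product of classes on powers. -/
noncomputable def conc (V : WeilCohomology.{u, 0} ops) {X : 𝒱.Obj} {m n : ℕ} (w : V.H (pw X m))
    (v : V.H (pw X n)) : V.H (pw X (m + 1 + n)) :=
  V.map (q1 X m n) w * V.map (q2 X m n) v

lemma conc_succ {m n : ℕ} (w : V.H (pw X m)) (v : V.H (pw X n)) (b : V.H X) :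
    conc V w (n := n + 1) (xp V v b : V.H ((pw X n).prod X)) =
      (xp V (conc V w v) b : V.H ((pw X (m + 1 + n)).prod X)) := by
  have h1 : V.map (lift (fst (pw X (m + 1 + n)) X ≫ q2 X m n) (snd (pw X (m + 1 + n)) X))
      (xp V v b) = V.map (fst (pw X (m + 1 + n)) X) (V.map (q2 X m n) v) *
        V.map (snd (pw X (m + 1 + n)) X) b := by
    rw [xp_def, map_mul (V.map _), ← V.map_comp, ← V.map_comp, Obj.lift_fst, Obj.lift_snd,
      V.map_comp]
  have h2 : V.map (fst (pw X (m + 1 + n)) X ≫ q1 X m n) w =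
      V.map (fst (pw X (m + 1 + n)) X) (V.map (q1 X m n) w) := by
    rw [V.map_comp]
  have h3 : V.map (fst (pw X (m + 1 + n)) X ≫ q1 X m n) w *
      V.map (lift (fst (pw X (m + 1 + n)) X ≫ q2 X m n) (snd (pw X (m + 1 + n)) X))
        (xp V v b) = xp V (conc V w v) b := by
    rw [h1, h2, ← mul_assoc, ← map_mul (V.map (fst (pw X (m + 1 + n)) X)), xp_def]
    rfl
  exact h3

variable [Fintype ι] {b : Basis ι V.K (V.H X)}
  {c : ∀ n, V.H (pw X n) ≃ₗ[V.K] ((Fin (n + 1) → ι) → V.K)}

lemma Crd.conc (hc : Crd b c) {m : ℕ} (w : V.H (pw X m)) : ∀ (n : ℕ) (v : V.H (pw X n))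
    (J : Fin ((m + 1) + (n + 1)) → ι), c (m + 1 + n) (FI.conc V w v) J =
      c m w (fun k => J (Fin.castAdd (n + 1) k)) * c n v (fun k => J (Fin.natAdd (m + 1) k))
  | 0, v, J => by
    have h1 : c (m + 1) (xp V w v : V.H ((pw X m).prod X)) J = _ := hc.succ m w v J
    refine h1.trans ?_
    have h2 := hc.zero v (fun k : Fin 1 => J (Fin.natAdd (m + 1) k))
    exact congrArg (fun z => c m w (fun k => J (Fin.castAdd 1 k)) * z) h2.symm
  | n + 1, v, J => by
    refine pw_ind (p := fun v => c (m + 1 + (n + 1)) (FI.conc V w v) J =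
      c m w (fun k => J (Fin.castAdd (n + 1 + 1) k)) *
        c (n + 1) v (fun k => J (Fin.natAdd (m + 1) k))) ?_ ?_ v
    · intro a a' ha ha'
      have h1 : FI.conc V w (a + a') = FI.conc V w a + FI.conc V w a' := by
        rw [FI.conc, map_add, mul_add]; rfl
      rw [h1, map_add, map_add, Pi.add_apply, Pi.add_apply, ha, ha', mul_add]
    · intro a a'
      have h1 : c (m + 1 + (n + 1)) (FI.conc V w (n := n + 1)
          (xp V a a' : V.H ((pw X n).prod X))) J =
          c (m + 1 + n + 1) (xp V (FI.conc V w a) a' : V.H ((pw X (m + 1 + n)).prod X)) J :=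
        congrArg (fun z => c (m + 1 + n + 1) z J) (conc_succ w a a')
      rw [h1, hc.succ, hc.conc w n a, hc.succ, mul_assoc]
      rfl

end Conc

end Pool.Agent.Helper7K9.FI
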