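import Pool.Agent.Helper7K9.FI.Pwo
import Pool.Agent.Helper7K9.FP.Rho
import Pool.Agent.Helper7K9.FP.Tor
import Pool.Agent.Helper7K9.FP.Dop

/-!
# Natural families of operators which fix the absolutely Hodge classes
-/

open CategoryTheory AlgebraicGeometry TensorProduct

universe u v

namespace Pool.Agent.Helper7K9.FI

open Module
open Pool.Agent.H914 Pool.Agent.H914.VarClass Pool.Agent.H914.VarClass.Obj
  Pool.Agent.H914.WeilCohomology
open Pool.Agent.Y133.Half
open Pool.Agent.Y121.AH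
open Pool.Agent.Helper7K9.FP

variable {k : Type u} [Field k] {𝒱 : VarClass k} {ops : CycleOps 𝒱}

section Gen

variable {V V' : WeilCohomology.{u, 0} ops} {X Y : 𝒱.Obj}

/-- A natural family of linear ring endomorphisms of the cohomology. -/
structure IsNat (V : WeilCohomology.{u, 0} ops)
    (θ : ∀ Y : 𝒱.Obj, Module.End V.K (V.H Y)) : Prop where
  mul : ∀ (Y : 𝒱.Obj) (a b : V.H Y), θ Y (a * b) = θ Y a * θ Y b
  nat : ∀ {Y Z : 𝒱.Obj} (f : Y ⟶ Z) (b : V.H Z), θ Y (V.map f b) = V.map f (θ Z b)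
  gr : ∀ Y : 𝒱.Obj, IsGr V (θ Y)
  tr : ∀ (Y : 𝒱.Obj) (a : V.H Y), V.tr Y (θ Y a) = V.tr Y a

variable {θ : ∀ Y : 𝒱.Obj, Module.End V.K (V.H Y)}

lemma IsNat.xp (h : IsNat V θ) (a : V.H X) (b : V.H Y) :
    θ (X.prod Y) (xp V a b) = Pool.Agent.Y133.Half.xp V (θ X a) (θ Y b) := by
  rw [xp_def, h.mul, h.nat, h.nat, xp_def]

lemma IsNat.pwo (h : IsNat V θ) (X : 𝒱.Obj) : ∀ (n : ℕ) (a : V.H (pw X n)),
    FI.pwo V (θ X) n a = θ (pw X n) a
  | 0, _ => rfl
  | n + 1, a => by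
    refine pw_ind (p := fun a => FI.pwo V (θ X) (n + 1) a = θ (pw X (n + 1)) a) ?_ ?_ a
    · intro a b ha hb; rw [map_add, ha, hb, map_add]
    · intro a b
      rw [pwo_succ_xp, h.pwo X n a]
      exact (h.xp a b).symm

/-- The tensor power of the conjugate of an operator. -/
lemma e_pwo (R : Comparison V V') (x : Module.End V'.K (V'.H X)) :
    ∀ (n : ℕ) (a : V.H (pw X n)), R.e _ (pwo V (cj R x) n a) = pwo V' x n (R.e _ a)
  | 0, a => e_cj R x a
  | n + 1, a => by
    refine pw_ind (p := fun a => R.e _ (pwo V (cj R x) (n + 1) a) =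
      pwo V' x (n + 1) (R.e _ a)) ?_ ?_ a
    · intro a b ha hb; rw [map_add, map_add, ha, hb, map_add, map_add]
    · intro a b
      have h1 : R.e (pw X (n + 1)) (Pool.Agent.Y133.Half.xp V a b : V.H ((pw X n).prod X)) =
          (Pool.Agent.Y133.Half.xp V' (R.e _ a) (R.e _ b) : V'.H ((pw X n).prod X)) :=
        e_xp R a b
      have h2 : R.e (pw X (n + 1)) (Pool.Agent.Y133.Half.xp V (pwo V (cj R x) n a) (cj R x b) :
          V.H ((pw X n).prod X)) =
          (Pool.Agent.Y133.Half.xp V' (R.e _ (pwo V (cj R x) n a)) (R.e _ (cj R x b)) :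
            V'.H ((pw X n).prod X)) :=
        e_xp R _ _
      rw [pwo_succ_xp, h1, pwo_succ_xp, h2, e_pwo R x n a, e_cj]

/-- Conjugates of natural families. -/
lemma IsNat.cj (R : Comparison V V') {θ : ∀ Y : 𝒱.Obj, Module.End V'.K (V'.H Y)}
    (h : IsNat V' θ) : IsNat V fun Y => FP.cj R (θ Y) where
  mul Y a b := by
    apply e_inj R
    rw [e_cj, map_mul, h.mul, map_mul, e_cj, e_cj]
  nat f b := by
    apply e_inj R
    rw [e_cj, R.nat, h.nat, R.nat, e_cj]
  gr Y i a ha := by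
    rw [← R.gr, e_cj]
    exact h.gr Y i _ (R.gr.2 ha)
  tr Y a := by
    have h1 := R.tr Y (FP.cj R (θ Y) a)
    rw [e_cj, h.tr, R.tr] at h1
    exact (R.s.injective (mul_left_cancel₀ (pow_ne_zero _ R.ne) h1)).symm

/-- The operator `t ^ i` in degree `i`. -/
noncomputable def dsc (V : WeilCohomology.{u, 0} ops) (t : V.K) (Y : 𝒱.Obj) :
    Module.End V.K (V.H Y) :=
  scal (V.isInternal Y) fun i => t ^ i

lemma dsc_gr (t : V.K) {i : ℕ} {a : V.H Y} (ha : a ∈ V.gr Y i) : dsc V t Y a = t ^ i • a :=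
  scal_apply _ _ ha

lemma dsc_mul (t : V.K) (a b : V.H Y) : dsc V t Y (a * b) = dsc V t Y a * dsc V t Y b := by
  refine gr_induction (V.isInternal Y)
    (p := fun a => dsc V t Y (a * b) = dsc V t Y a * dsc V t Y b) ?_ ?_ a
  · intro i a ha
    refine gr_induction (V.isInternal Y)
      (p := fun b => dsc V t Y (a * b) = dsc V t Y a * dsc V t Y b) ?_ ?_ b
    · intro j b hb
      rw [dsc_gr t (V.mul_mem ha hb), dsc_gr t ha, dsc_gr t hb, smul_mul_smul_comm, pow_add]
    · intro b b' hb hb'; rw [mul_add, map_add, hb, hb', map_add, mul_add]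
  · intro a a' ha ha'; rw [add_mul, map_add, ha, ha', map_add, add_mul]

lemma dsc_nat (t : V.K) (f : X ⟶ Y) (b : V.H Y) :
    dsc V t X (V.map f b) = V.map f (dsc V t Y b) := by
  refine gr_induction (V.isInternal Y)
    (p := fun b => dsc V t X (V.map f b) = V.map f (dsc V t Y b)) ?_ ?_ b
  · intro i b hb
    rw [dsc_gr t hb, dsc_gr t (V.map_mem f hb), map_smul]
  · intro b b' hb hb'; rw [map_add, map_add, hb, hb', map_add, map_add]

lemma dsc_tr (t : V.K) (a : V.H Y) : V.tr Y (dsc V t Y a) = t ^ (2 * Y.dim) * V.tr Y a := by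
  refine gr_induction (V.isInternal Y)
    (p := fun a => V.tr Y (dsc V t Y a) = t ^ (2 * Y.dim) * V.tr Y a) ?_ ?_ a
  · intro i a ha
    by_cases hi : i = 2 * Y.dim
    · subst hi
      rw [dsc_gr t ha, map_smul, smul_eq_mul]
    · rw [dsc_gr t ha, map_smul, V.tr_eq_zero ha hi, smul_zero, mul_zero]
  · intro a b ha hb; rw [map_add, map_add, ha, hb, map_add, mul_add]

/-- The operator `R₁⁻¹ R₂`, corrected in each degree. -/
noncomputable def rr (R₁ R₂ : Comparison V V') (hs : R₁.s = R₂.s) (t : V'.K) (Y : 𝒱.Obj) :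
    Module.End V.K (V.H Y) where
  toFun a := (R₁.e Y).symm (dsc V' t Y (R₂.e Y a))
  map_add' a b := by rw [map_add, map_add, map_add]
  map_smul' l a := by rw [R₂.semi, map_smul, ← hs, symm_smul]; rfl

lemma e_rr (R₁ R₂ : Comparison V V') (hs : R₁.s = R₂.s) (t : V'.K) (a : V.H Y) :
    R₁.e Y (rr R₁ R₂ hs t Y a) = dsc V' t Y (R₂.e Y a) :=
  RingEquiv.apply_symm_apply _ _

lemma isNat_rr (R₁ R₂ : Comparison V V') (hs : R₁.s = R₂.s) {t : V'.K}
    (ht : t ^ 2 * R₂.c = R₁.c) : IsNat V (rr R₁ R₂ hs t) where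
  mul Y a b := by
    apply e_inj R₁
    rw [e_rr, map_mul, dsc_mul, map_mul, e_rr, e_rr]
  nat f b := by
    apply e_inj R₁
    rw [e_rr, R₂.nat, dsc_nat, R₁.nat, e_rr]
  gr Y i a ha := by
    rw [← R₁.gr, e_rr, dsc_gr t (R₂.gr.2 ha)]
    exact Submodule.smul_mem _ _ (R₂.gr.2 ha)
  tr Y a := by
    have h1 := R₁.tr Y (rr R₁ R₂ hs t Y a)
    rw [e_rr, dsc_tr, R₂.tr, ← mul_assoc, pow_mul, ← mul_pow, ht, hs] at h1
    exact (R₂.s.injective (mul_left_cancel₀ (pow_ne_zero _ R₁.ne) h1)).symm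

end Gen

section Hodge

variable {T T' : HodgeTheory ops} {X Y : 𝒱.Obj}

lemma isNat_gop (T : HodgeTheory ops) : IsNat (CW T) (gop T) where
  mul _ a b := gop_mul a b
  nat f b := gop_map f b
  gr _ _ _ ha := gop_gr' ha
  tr _ a := tr_gop a

lemma dop_of_gop {x : (CW T).H X} (h : gop T X x = x) : dop T X x = 0 := by
  classical
  set N : Module.End (CW T).K ((CW T).H X) := dia (Pool.Agent.Y121.AH.isInternal T X) fun r =>
    ((r.1 - r.2 : ℤ) : (CW T).K) * ((2 : (CW T).K) ^ (r.1 - r.2) - 1)⁻¹ with hN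
  have h1 : ∀ x, N (gop T X x) - N x = dop T X x := by
    intro x
    refine pq_ind T (p := fun x => N (gop T X x) - N x = dop T X x) ?_ ?_ ?_ x
    · intro a b x hx
      rw [gop_pq hx, dop_pq hx, map_smul, hN,
        dia_apply (Pool.Agent.Y121.AH.isInternal T X) _ (i := (a, b)) hx, smul_smul, ← sub_smul]
      congr 1
      by_cases hab : a = b
      · simp [hab]
      · have h2 : (2 : (CW T).K) ^ (a - b) - 1 ≠ 0 := by
          rw [sub_ne_zero]
          intro h3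
          exact hab (sub_eq_zero.1 (two_zpow_ne h3))
        change (2 : (CW T).K) ^ (a - b) * (((a - b : ℤ) : (CW T).K) *
          ((2 : (CW T).K) ^ (a - b) - 1)⁻¹) - ((a - b : ℤ) : (CW T).K) *
          ((2 : (CW T).K) ^ (a - b) - 1)⁻¹ = ((a - b : ℤ) : (CW T).K)
        field_simp
    · intro a b ha hb
      rw [map_add, map_add, map_add, map_add, ← ha, ← hb]
      abel
    · simp
  rw [← h1, h, sub_self]

/-- A natural family which fixes the absolutely Hodge classes. -/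
lemma IsNat.fix {D : Conjugates T} {θ : ∀ Y : 𝒱.Obj, Module.End (CW T).K ((CW T).H Y)}
    (h : IsNat (CW T) θ) (hf : ∀ (Z : 𝒱.Obj) (j : ℕ) (c : T.W.H Z), IsAbsHodge D Z j c →
      θ Z (em T.W ℂ c) = em T.W ℂ c) (X : 𝒱.Obj) : Fix (absSys D) X ℂ (θ X) where
  gr := h.gr X
  iso a b := by rw [← h.mul]; exact h.tr X _
  fix n a ha := by
    refine (h.pwo X n _).trans ?_
    refine ClassPred.sp_ind (Q := absPred D)
      (q := fun c => θ (pw X n) (em T.W ℂ c) = em T.W ℂ c) ?_ ?_ ?_ ha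
    · intro j c hc; exact hf _ j c hc
    · rw [em_zero, map_zero]
    · intro a b ha hb; rw [em_add, map_add, ha, hb]

end Hodge

end Pool.Agent.Helper7K9.FI
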