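import Pool.Agent.Helper7K9.FI.Stm
import Pool.Agent.Helper7K9.FP.Mid
import Pool.Agent.Helper7K9.FP.Drv

/-!
# Tensor powers of operators on the cohomology of the powers
-/

open CategoryTheory AlgebraicGeometry TensorProduct

universe u v

namespace Pool.Agent.Helper7K9.FI

open Module
open Pool.Agent.H914 Pool.Agent.H914.VarClass Pool.Agent.H914.VarClass.Obj
  Pool.Agent.H914.WeilCohomology
open Pool.Agent.Y133.Half
open Pool.Agent.Y121.AH (em ex em_smul em_add em_mul em_map em_tr em_gr tmul_ind tmul_eq)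
open Pool.Agent.Helper7K9.FP

variable {k : Type u} [Field k] {𝒱 : VarClass k} {ops : CycleOps 𝒱}

section Gen

variable {W : WeilCohomology.{u, v} ops} {X Y : 𝒱.Obj}

lemma pwo_zero (x : Module.End W.K (W.H X)) : pwo W x 0 = x := rfl

lemma pwo_succ_xp (x : Module.End W.K (W.H X)) (n : ℕ) (a : W.H (pw X n)) (b : W.H X) :
    pwo W x (n + 1) (xp W a b : W.H ((pw X n).prod X)) =
      (xp W (pwo W x n a) (x b) : W.H ((pw X n).prod X)) :=
  extOp_xp _ _ _ _

/-- Induction for classes on the power `X ^ (n + 2)`. -/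
lemma pw_ind {n : ℕ} {p : W.H (pw X (n + 1)) → Prop} (hadd : ∀ a b, p a → p b → p (a + b))
    (h : ∀ (a : W.H (pw X n)) (b : W.H X), p (xp W a b : W.H ((pw X n).prod X)))
    (c : W.H (pw X (n + 1))) : p c := by
  have key : ∀ c : W.H ((pw X n).prod X), p c := by
    intro c
    exact xp_induction (p := fun c : W.H ((pw X n).prod X) => p c) hadd
      (fun i j a _ b _ => h a b) c
  exact key c

lemma pwo_one : ∀ (n : ℕ) (a : W.H (pw X n)), pwo W (1 : Module.End W.K (W.H X)) n a = a
  | 0, _ => rfl
  | n + 1, c => by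
    refine pw_ind (p := fun c => pwo W (1 : Module.End W.K (W.H X)) (n + 1) c = c) ?_ ?_ c
    · intro a b ha hb; rw [map_add, ha, hb]
    · intro a b; rw [pwo_succ_xp, pwo_one n a]; rfl

lemma pwo_mul (x y : Module.End W.K (W.H X)) : ∀ (n : ℕ) (a : W.H (pw X n)),
    pwo W (x * y) n a = pwo W x n (pwo W y n a)
  | 0, _ => rfl
  | n + 1, c => by
    refine pw_ind (p := fun c => pwo W (x * y) (n + 1) c =
      pwo W x (n + 1) (pwo W y (n + 1) c)) ?_ ?_ c
    · intro a b ha hb; rw [map_add, ha, hb, map_add, map_add]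
    · intro a b
      rw [pwo_succ_xp, pwo_mul x y n a, pwo_succ_xp, pwo_succ_xp]
      rfl

lemma pwo_inv {x y : Module.End W.K (W.H X)} (h : x * y = 1) (n : ℕ) (a : W.H (pw X n)) :
    pwo W x n (pwo W y n a) = a := by
  rw [← pwo_mul, h, pwo_one]

lemma proj_gr {x : Module.End W.K (W.H X)} (hx : IsGr W x) (i : ℕ) (a : W.H X) :
    H914.proj (W.isInternal X) i (x a) = x (H914.proj (W.isInternal X) i a) := by
  refine gr_induction (W.isInternal X)
    (p := fun a => H914.proj (W.isInternal X) i (x a) = x (H914.proj (W.isInternal X) i a)) ?_ ?_ a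
  · intro j a ha
    by_cases hij : j = i
    · subst hij
      rw [proj_same _ ha, proj_same _ (hx j a ha)]
    · rw [proj_ne _ ha hij, proj_ne _ (hx j a ha) hij, map_zero]
  · intro a b ha hb; simp only [map_add, ha, hb]

lemma eq_of_proj_eq {a b : W.H X} (h : ∀ i, H914.proj (W.isInternal X) i a =
    H914.proj (W.isInternal X) i b) : a = b := by
  have h0 : ∀ c : W.H X, (∀ i, H914.proj (W.isInternal X) i c = 0) → c = 0 := by
    intro c hc
    have h1 := sum_proj (W.isInternal X) (N := 2 * X.dim + 1) fun i hi => W.gr_eq_bot X i (by omega)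
    have h2 := congrArg (fun f : Module.End W.K (W.H X) => f c) h1
    simp only [LinearMap.sum_apply, Module.End.one_apply] at h2
    rw [← h2]
    exact Finset.sum_eq_zero fun i _ => hc i
  rw [← sub_eq_zero]
  apply h0
  intro i
  rw [map_sub, h i, sub_self]

/-- The inverse of an operator which respects the degrees respects the degrees. -/
lemma IsGr.inv {x y : Module.End W.K (W.H X)} (hx : IsGr W x) (h : x * y = 1) (h' : y * x = 1) :
    IsGr W y := by
  intro i a ha
  have h1 : H914.proj (W.isInternal X) i (y a) = y a := by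
    have hinj : ∀ u v : W.H X, x u = x v → u = v := by
      intro u v huv
      have h2 := congrArg y huv
      change (y * x) u = (y * x) v at h2
      rwa [h'] at h2
    apply hinj
    rw [← proj_gr hx]
    have h3 : x (y a) = a := by
      change (x * y) a = a
      rw [h]; rfl
    rw [h3, proj_same _ ha]
  rw [← h1]
  exact proj_mem _ _ _

/-- An operator which respects the trace form is invertible. -/
lemma exists_inv {x : Module.End W.K (W.H X)}
    (hx : ∀ a b, W.tr X (x a * x b) = W.tr X (a * b)) :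
    ∃ y : Module.End W.K (W.H X), x * y = 1 ∧ y * x = 1 := by
  have hinj : Function.Injective x := by
    rw [injective_iff_map_eq_zero]
    intro a ha
    apply W.nondeg
    intro b
    rw [← hx, ha, zero_mul, map_zero]
  let e := LinearEquiv.ofInjectiveEndo x hinj
  refine ⟨e.symm.toLinearMap, ?_, ?_⟩
  · apply LinearMap.ext
    intro a
    exact e.apply_symm_apply a
  · apply LinearMap.ext
    intro a
    exact e.symm_apply_apply a

end Gen

section Fix

variable {W : WeilCohomology.{u, 0} ops} {S : Sys W} {X : 𝒱.Obj} {L : Type} [Field L]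
  [Algebra W.K L] {x y : Module.End (baseW W L).K ((baseW W L).H X)}

lemma Fix.one : Fix S X L (1 : Module.End (baseW W L).K ((baseW W L).H X)) where
  gr _ _ ha := ha
  iso _ _ := rfl
  fix n a _ := pwo_one n _

lemma Fix.mul (hx : Fix S X L x) (hy : Fix S X L y) : Fix S X L (x * y) where
  gr i a ha := hx.gr i _ (hy.gr i a ha)
  iso a b := (hx.iso (y a) (y b)).trans (hy.iso a b)
  fix n a ha := by rw [pwo_mul, hy.fix n a ha, hx.fix n a ha]

lemma Fix.exists_inv (hx : Fix S X L x) : ∃ y, Fix S X L y ∧ x * y = 1 ∧ y * x = 1 := by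
  obtain ⟨y, h1, h2⟩ := FI.exists_inv hx.iso
  have h3 : ∀ a, x (y a) = a := fun a => by
    change (x * y) a = a
    rw [h1]; rfl
  refine ⟨y, ⟨hx.gr.inv h1 h2, fun a b => ?_, fun n a ha => ?_⟩, h1, h2⟩
  · rw [← hx.iso (y a) (y b), h3, h3]
  · have h4 := pwo_inv h2 n (em W L a)
    rw [hx.fix n a ha] at h4
    exact h4

end Fix

end Pool.Agent.Helper7K9.FI
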