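import Pool.Agent.Helper7K9.FI.Crb
import Pool.Agent.Helper7K9.FI.Fin1
import Pool.Agent.Helper7K9.FI.Kap

/-!
# The equations of the operators which fix a system of classes
-/

open CategoryTheory AlgebraicGeometry TensorProduct

universe u v

namespace Pool.Agent.Helper7K9.FI

open Module
open Pool.Agent.H914 Pool.Agent.H914.VarClass Pool.Agent.H914.VarClass.Obj
  Pool.Agent.H914.WeilCohomology
open Pool.Agent.Y133.Half
open Pool.Agent.Y121.AH (em ex em_smul em_add em_mul em_map em_tr em_gr em_zero em_xp tmul_ind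
  tmul_eq)
open Pool.Agent.Helper7K9.FP
open Pool.Agent.Y121 (AH.em)

variable {k : Type u} [Field k] {𝒱 : VarClass k} {ops : CycleOps 𝒱}
  {W : WeilCohomology.{u, 0} ops} {X : 𝒱.Obj} {ι : Type} [Fintype ι]
  {b : Basis ι W.K (W.H X)} {c : ∀ n, W.H (pw X n) ≃ₗ[W.K] ((Fin (n + 1) → ι) → W.K)}

section One

variable {κ : Type} [Field κ] [Algebra W.K κ]
  {cκ : ∀ n, (baseW W κ).H (pw X n) ≃ₗ[(baseW W κ).K] ((Fin (n + 1) → ι) → (baseW W κ).K)}

/-- The operator with a given matrix. -/
noncomputable def opK (κ : Type) [Field κ] [Algebra W.K κ] (b : Basis ι W.K (W.H X))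
    (x : ι → ι → κ) : Module.End (baseW W κ).K ((baseW W κ).H X) :=
  opm (bK κ b) fun i j => (show (baseW W κ).K from x i j)

lemma mat_opK (x : ι → ι → κ) : mat (bK κ b) (opK κ b x) = fun i j =>
    (show (baseW W κ).K from x i j) :=
  mat_opm (b := bK κ b) _

lemma opK_mat (x : Module.End (baseW W κ).K ((baseW W κ).H X)) :
    opK κ b (mat (bK κ b) x) = x :=
  opm_mat x

/-- The matrix fixes the coordinates of the class. -/
lemma fix_iff (hc : Crd b c) (hκ : Crd (bK κ b) cκ) (x : ι → ι → κ) (n : ℕ)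
    (a : W.H (pw X n)) :
    pwo (baseW W κ) (opK κ b x) n (em W κ a) = em W κ a ↔
      tp x (n + 1) (fun I => algebraMap W.K κ (c n a I)) =
        fun I => algebraMap W.K κ (c n a I) := by
  have h1 := hκ.pwo (opK κ b x) n (em W κ a)
  rw [mat_opK, hc.em hκ] at h1
  constructor
  · intro h
    rw [h, hc.em hκ] at h1
    exact h1.symm
  · intro h
    apply (cκ n).injective
    rw [h1, hc.em hκ]
    exact h

lemma tr_em (p q : ι) : (baseW W κ).tr X (bK κ b p * bK κ b q) =
    algebraMap W.K κ (W.tr X (b p * b q)) := by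
  rw [bK_apply, bK_apply, ← em_mul, em_tr]
  rfl

/-- The coordinates are given by the trace form. -/
lemma exists_cls (hc : Crd b c) (hκ : Crd (bK κ b) cκ) (n : ℕ) (J : Fin (n + 1) → ι) :
    ∃ y : W.H (pw X n), ∀ v : (baseW W κ).H (pw X n),
      cκ n v J = (baseW W κ).tr (pw X n) (v * em W κ y) := by
  obtain ⟨y, hy⟩ := exists_dual_class W ((LinearMap.proj J).comp (c n).toLinearMap)
  refine ⟨y, fun v => ?_⟩
  refine tmul_ind (p := fun v => cκ n v J = (baseW W κ).tr (pw X n) (v * em W κ y)) ?_ ?_ ?_ v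
  · rw [map_zero, zero_mul, map_zero]; rfl
  · intro v w hv hw
    rw [map_add, Pi.add_apply, hv, hw, add_mul, map_add]
  · intro l a
    rw [tmul_eq, map_smul, Pi.smul_apply, hc.em hκ, smul_mul_assoc, map_smul, ← em_mul, em_tr, hy]
    rfl

end One

section Two

variable {Ω κ : Type} [Field Ω] [Field κ] [Algebra W.K Ω] [Algebra W.K κ] [Algebra Ω κ]
  [IsScalarTower W.K Ω κ]
  {cΩ : ∀ n, (baseW W Ω).H (pw X n) ≃ₗ[(baseW W Ω).K] ((Fin (n + 1) → ι) → (baseW W Ω).K)}
  {cκ : ∀ n, (baseW W κ).H (pw X n) ≃ₗ[(baseW W κ).K] ((Fin (n + 1) → ι) → (baseW W κ).K)}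
  {deg : ι → ℕ} {S : Sys W}

open MvPolynomial in
/-- A matrix which satisfies the equations of the group fixes the classes of the system. -/
lemma Fix.spec (h : HBas b deg) (hc : Crd b c) (hΩ : Crd (bK Ω b) cΩ) (hκ : Crd (bK κ b) cκ)
    (x : ι → ι → κ) (hx : ∀ f : MvPolynomial (ι × ι) Ω,
      (∀ g : ι → ι → Ω, Fix S X Ω (opK Ω b g) →
        aeval (fun p : ι × ι => g p.1 p.2) f = 0) →
      aeval (fun p : ι × ι => x p.1 p.2) f = 0) :
    Fix S X κ (opK κ b x) where
  gr := by
    refine h.base.opm fun p i hp => (show x p i = 0 from ?_)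
    have h1 := hx (MvPolynomial.X (p, i)) fun g hg => by
      rw [aeval_X]
      have h2 := h.base.mat_eq hg.gr hp
      rw [mat_opK] at h2
      exact h2
    rw [aeval_X] at h1
    exact h1
  iso := by
    refine iso_of (b := bK κ b) fun i j => ?_
    have h1 := hx (∑ p, ∑ q, MvPolynomial.X (p, i) * MvPolynomial.X (q, j) *
      C (algebraMap W.K Ω (W.tr X (b p * b q))) - C (algebraMap W.K Ω (W.tr X (b i * b j))))
      fun g hg => by
        simp only [map_sub, map_sum, map_mul, aeval_X, aeval_C, Algebra.algebraMap_self,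
          RingHom.id_apply]
        have h2 := tr_basis (b := bK Ω b) (opK Ω b g) i j
        rw [hg.iso, mat_opK, tr_em] at h2
        simp only [tr_em] at h2
        rw [sub_eq_zero]
        exact h2.symm
    simp only [map_sub, map_sum, map_mul, aeval_X, aeval_C] at h1
    rw [sub_eq_zero] at h1
    simp only [← IsScalarTower.algebraMap_apply W.K Ω κ] at h1
    rw [mat_opK]
    simp only [tr_em]
    exact h1
  fix n a ha := by
    refine (fix_iff hc hκ x n a).2 ?_
    funext J
    have h1 := hx (Fin1L.pol (n + 1) (fun I => algebraMap W.K Ω (c n a I)) J -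
      C (algebraMap W.K Ω (c n a J))) fun g hg => by
        rw [map_sub, Fin1L.aeval_pol, aeval_C]
        simp only [Algebra.algebraMap_self, RingHom.id_apply]
        rw [sub_eq_zero]
        exact congrFun ((fix_iff hc hΩ g n a).1 (hg.fix n a ha)) J
    rw [map_sub, Fin1L.aeval_pol, aeval_C, sub_eq_zero] at h1
    simp only [← IsScalarTower.algebraMap_apply W.K Ω κ] at h1
    exact h1

end Two

end Pool.Agent.Helper7K9.FI
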