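import Mathlib

/-!
# Tensor powers of matrices and the statements of the finiteness theorems
-/

namespace Pool.Agent.Helper7K9.FI

open Module

/-- The tensor power of the matrix `x`, in coordinates. -/
def tp {ι R : Type} [Fintype ι] [CommSemiring R] (x : ι → ι → R) (n : ℕ)
    (v : (Fin n → ι) → R) : (Fin n → ι) → R :=
  fun J => ∑ I : Fin n → ι, (∏ k, x (J k) (I k)) * v I

/-- The matrices in `G` have only finitely many restrictions to the spaces `H n`, if the matrices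
over all extension fields which satisfy the equations of `G` map them to vectors with
coordinates in the base field. -/
def S_FIN1 : Prop := ∀ (K Ω ι : Type) [Field K] [Field Ω] [Algebra K Ω] [Fintype ι]
  (H : ∀ n, Submodule K ((Fin n → ι) → K)) (G : Set (ι → ι → Ω)),
  (∀ (κ : Type) [Field κ] [Algebra Ω κ] (x : ι → ι → κ),
    (∀ f : MvPolynomial (ι × ι) Ω,
      (∀ g ∈ G, MvPolynomial.aeval (fun p : ι × ι => g p.1 p.2) f = 0) →
      MvPolynomial.aeval (fun p : ι × ι => x p.1 p.2) f = 0) →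
    ∀ n, ∀ w ∈ H n, ∀ J, tp x n (fun I => algebraMap Ω κ (algebraMap K Ω (w I))) J ∈
      Set.range (algebraMap Ω κ)) →
  ∃ (r : ℕ) (p : (ι → ι → Ω) → Fin r), ∀ x ∈ G, ∀ y ∈ G, p x = p y → ∀ n, ∀ w ∈ H n,
    tp x n (fun I => algebraMap K Ω (w I)) = tp y n (fun I => algebraMap K Ω (w I))

/-- If the group `G` has only finitely many restrictions to the spaces `H n` and if the vectors
fixed by `G` are in the span of `A n`, then the dimension of `H n` is bounded by a multiple of the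
dimension of `A (m + n)` for some `m`. -/
def S_FIN2 : Prop := ∀ (K Ω ι : Type) [Field K] [Field Ω] [Algebra K Ω] [Fintype ι]
  [DecidableEq ι] (A H : ∀ n, Submodule K ((Fin n → ι) → K)) (G : Set (ι → ι → Ω)),
  (fun i j => if i = j then 1 else 0) ∈ G →
  (∀ x ∈ G, ∀ y ∈ G, (fun i j => ∑ k, x i k * y k j) ∈ G) →
  (∀ x ∈ G, ∃ y ∈ G, (fun i j => ∑ k, x i k * y k j) = fun i j => if i = j then 1 else 0) →
  (∀ m n, 0 < m → 0 < n → ∀ w ∈ H m, ∀ v ∈ H n,
    (fun J : Fin (m + n) → ι => w (fun k => J (Fin.castAdd n k)) *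
      v (fun k => J (Fin.natAdd m k))) ∈ H (m + n)) →
  (∃ e ∈ H 1, e ≠ 0 ∧ ∀ x ∈ G,
    tp x 1 (fun I => algebraMap K Ω (e I)) = fun I => algebraMap K Ω (e I)) →
  (∀ n, 0 < n → ∀ v : (Fin n → ι) → Ω, (∀ x ∈ G, tp x n v = v) →
    v ∈ Submodule.span Ω {u | ∃ a ∈ A n, u = fun I => algebraMap K Ω (a I)}) →
  (∃ (r : ℕ) (p : (ι → ι → Ω) → Fin r), ∀ x ∈ G, ∀ y ∈ G, p x = p y → ∀ n, ∀ w ∈ H n,
    tp x n (fun I => algebraMap K Ω (w I)) = tp y n (fun I => algebraMap K Ω (w I))) →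
  ∃ m C : ℕ, ∀ n, 0 < n → finrank K (H n) ≤ C * finrank K (A (m + n))

/-- A bound for the dimension of a space which is contained in a sum of images of `A` after an
extension of the coefficients. -/
def S_DIM : Prop := ∀ (K Ω α β : Type) [Field K] [Field Ω] [Algebra K Ω] [Fintype α] [Fintype β]
  (H : Submodule K (α → K)) (A : Submodule K (β → K)) (s : ℕ)
  (f : Fin s → ((β → Ω) →ₗ[Ω] (α → Ω))),
  (∀ v ∈ H, ∃ u : Fin s → β → Ω,
    (∀ i, u i ∈ Submodule.span Ω {u | ∃ a ∈ A, u = fun I => algebraMap K Ω (a I)}) ∧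
    (fun I => algebraMap K Ω (v I)) = ∑ i, f i (u i)) →
  finrank K H ≤ s * finrank K A

end Pool.Agent.Helper7K9.FI
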