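import Pool.Agent.Helper7K9.FP.Stm2
import Pool.Agent.Helper7K9.FI.Tp

/-!
# Operators on the cohomology of the powers: definitions and statements
-/

open CategoryTheory AlgebraicGeometry TensorProduct

universe u v

namespace Pool.Agent.Helper7K9.FI

open Module
open Pool.Agent.H914 Pool.Agent.H914.VarClass Pool.Agent.H914.VarClass.Obj
  Pool.Agent.H914.WeilCohomology
open Pool.Agent.Y133.Half
open Pool.Agent.Y121.AH (em ex CW HodgeTheory IsHodge IsAbsHodge Conjugates hodgeSys absSys)
open Pool.Agent.Helper7K9.FP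

variable {k : Type u} [Field k] {𝒱 : VarClass k} {ops : CycleOps 𝒱}

/-- The tensor powers of an operator, on the cohomology of the powers of `X`. -/
noncomputable def pwo (W : WeilCohomology.{u, v} ops) {X : 𝒱.Obj}
    (x : Module.End W.K (W.H X)) : ∀ n, Module.End W.K (W.H (pw X n))
  | 0 => x
  | n + 1 => (extOp W (pwo W x n) x : Module.End W.K (W.H ((pw X n).prod X)))

/-- The operator respects the degrees. -/
def IsGr (W : WeilCohomology.{u, v} ops) {X : 𝒱.Obj} (x : Module.End W.K (W.H X)) : Prop :=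
  ∀ i, ∀ a ∈ W.gr X i, x a ∈ W.gr X i

/-- The operator with coefficients in `L` respects the degrees and the trace form and fixes the
classes of the system `S` on all powers of `X`. -/
structure Fix {W : WeilCohomology.{u, 0} ops} (S : Sys W) (X : 𝒱.Obj) (L : Type) [Field L]
    [Algebra W.K L] (x : Module.End (baseW W L).K ((baseW W L).H X)) : Prop where
  gr : IsGr (baseW W L) x
  iso : ∀ a b, (baseW W L).tr X (x a * x b) = (baseW W L).tr X (a * b)
  fix : ∀ n, ∀ a ∈ S.C (pw X n), pwo (baseW W L) x n (em W L a) = em W L a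

/-- Coordinates on the cohomology of the powers of `X`. -/
def S_CRD (W : WeilCohomology.{u, v} ops) : Prop :=
  ∀ (X : 𝒱.Obj) (ι : Type) [Fintype ι] (b : Basis ι W.K (W.H X)),
    ∃ c : ∀ n, W.H (pw X n) ≃ₗ[W.K] ((Fin (n + 1) → ι) → W.K),
      (∀ (a : W.H X) J, c 0 a J = b.repr a (J 0)) ∧
      ∀ n (a : W.H (pw X n)) (a' : W.H X) J,
        c (n + 1) (xp W a a' : W.H ((pw X n).prod X)) J =
          c n a (fun k => J k.castSucc) * b.repr a' (J (Fin.last (n + 1)))

/-- A bound for the dimensions which implies that the index is finite. -/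
def S_ASY (W : WeilCohomology.{u, v} ops) [CharZero W.K] : Prop :=
  ∀ (X : 𝒱.Obj) [Nontrivial (W.H X)] (S : Sys W), (∀ n, Sys.Nondeg S (pw X n)) →
    ∀ (t : ℕ → ℕ) (m C : ℕ), (∀ n, t n ≤ C * finrank W.K (S.C (pw X (m + n)))) →
    ∀ N : ℕ∞, Filter.Tendsto (fun n => (t n : ENNReal) / finrank W.K (S.C (pw X n)))
      Filter.atTop (nhds (N : ENNReal)) → N ≠ ⊤

/-- If all skew operators which kill the classes of `S` kill the classes of `S'`, then the operators
over the extension `κ` of the algebraically closed field `Ω` which fix the classes of `S` map the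
classes of `S'` to classes with coefficients in `Ω`. -/
def S_KAP (W : WeilCohomology.{u, 0} ops) : Prop :=
  ∀ (X : 𝒱.Obj) (S S' : Sys W) (Ω κ : Type) [Field Ω] [Field κ] [Algebra W.K Ω]
    [Algebra W.K κ] [Algebra Ω κ] [IsScalarTower W.K Ω κ] [IsAlgClosed Ω] [CharZero Ω],
    (∀ y : Module.End W.K (W.H X), IsGr W y → Anti S X y → ∀ n, ∀ b ∈ S'.C (pw X n),
      del W y n b = 0) →
    ∀ x : Module.End (baseW W κ).K ((baseW W κ).H X), Fix S X κ x → ∀ n,
    ∀ b ∈ S'.C (pw X n), ∀ y : W.H (pw X n),
      (show κ from (baseW W κ).tr (pw X n) (pwo (baseW W κ) x n (em W κ b) * em W κ y)) ∈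
        Set.range (algebraMap Ω κ)

/-- The classes which are fixed by all operators which fix the absolutely Hodge classes are linear
combinations of absolutely Hodge classes. -/
def S_TAN (T : HodgeTheory ops) : Prop :=
  ∀ (D : Conjugates T) (X : 𝒱.Obj) (n : ℕ) (v : (CW T).H (pw X n)),
    (∀ x : Module.End (CW T).K ((CW T).H X), Fix (absSys D) X ℂ x → pwo (CW T) x n v = v) →
    v ∈ Submodule.span (CW T).K {u | ∃ a ∈ (absSys D).C (pw X n), u = em T.W ℂ a}

end Pool.Agent.Helper7K9.FI
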